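import Pool.Agent.K4H82.ST.Growth

/-!
# Symmetric decompositions into expanders
-/

set_option autoImplicit false

open Finset

namespace Pool.Agent.K4H82.ST

open Classical in
/-- The class of `a`. -/
noncomputable def cls {Ω : Type*} [Fintype Ω] (r : Ω → Ω → Prop) (a : Ω) : Finset Ω :=
  univ.filter (fun b => r a b)

theorem mem_cls {Ω : Type*} [Fintype Ω] (r : Ω → Ω → Prop) (a b : Ω) : b ∈ cls r a ↔ r a b := by
  simp [cls]

/-- The potential of a class of size `x`. -/
noncomputable def gf (s0 x : ℝ) : ℝ := max 0 (Real.logb 2 (2 * x / s0))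

theorem gf_nonneg (s0 x : ℝ) : 0 ≤ gf s0 x := le_max_left _ _

theorem gf_mono {s0 x y : ℝ} (hs : 0 < s0) (hx : 0 < x) (hxy : x ≤ y) : gf s0 x ≤ gf s0 y := by
  apply max_le_max le_rfl
  apply Real.logb_le_logb_of_le (by norm_num) (by positivity)
  gcongr

theorem gf_half {s0 x y : ℝ} (hs : 0 < s0) (hx : 0 < x) (hxy : 2 * x ≤ y) (hy : s0 ≤ y) :
    gf s0 x + 1 ≤ gf s0 y := by
  have hy0 : 0 < y := hs.trans_le hy
  have e1 : Real.logb 2 (2 * y / s0) = 1 + Real.logb 2 (y / s0) := by
    rw [mul_div_assoc, Real.logb_mul (by norm_num) (by positivity)]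
    congr 1
    exact Real.logb_self_eq_one (by norm_num)
  have e2 : 0 ≤ Real.logb 2 (y / s0) :=
    Real.logb_nonneg (by norm_num) (by rw [le_div_iff₀ hs]; linarith)
  have e3 : Real.logb 2 (2 * x / s0) ≤ Real.logb 2 (y / s0) := by
    apply Real.logb_le_logb_of_le (by norm_num) (by positivity)
    gcongr
  have e4 : gf s0 x ≤ Real.logb 2 (y / s0) := max_le e2 e3
  calc gf s0 x + 1 ≤ 1 + Real.logb 2 (y / s0) := by linarith
    _ = Real.logb 2 (2 * y / s0) := e1.symm
    _ ≤ _ := le_max_right _ _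

variable {Ω : Type*} [Fintype Ω] [DecidableEq Ω] (Γ : SimpleGraph Ω) [DecidableRel Γ.Adj]

open Classical in
/-- The number of cut arcs. -/
noncomputable def cut (r : Ω → Ω → Prop) : ℕ :=
  (univ.filter (fun p : Ω × Ω => Γ.Adj p.1 p.2 ∧ ¬ r p.1 p.2)).card

/-- **Decomposition.** -/
theorem dec (σ : Ω → Ω) (hσ : ∀ a, σ (σ a) = a) (hσΓ : ∀ a b, Γ.Adj a b → Γ.Adj (σ a) (σ b))
    (s0 E : ℝ) (hs0 : 0 < s0) (hE : 0 ≤ E) :
    ∃ r : Ω → Ω → Prop, Equivalence r ∧ (∀ a b, r a b → r (σ a) (σ b)) ∧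
      (cut Γ r : ℝ) ≤ E * (Fintype.card Ω * gf s0 (Fintype.card Ω)) ∧
      ∀ a, s0 ≤ ((cls r a).card : ℝ) → ∀ S ⊆ cls r a, 2 * S.card ≤ (cls r a).card →
        E / 4 * S.card ≤ ∑ b ∈ S, (dg Γ (cls r a \ S) b : ℝ) := by
  classical
  let T := {r : Ω → Ω → Prop // Equivalence r ∧ ∀ a b, r a b → r (σ a) (σ b)}
  have hT : Nonempty T := ⟨⟨fun _ _ => True, ⟨⟨fun _ => trivial, fun _ => trivial,
    fun _ _ => trivial⟩, fun _ _ _ => trivial⟩⟩⟩
  let Φ : T → ℝ := fun r => (cut Γ r.1 : ℝ) + E * ∑ a, gf s0 ((cls r.1 a).card)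
  obtain ⟨⟨r, hr, hrσ⟩, hmin⟩ := Finite.exists_min Φ
  refine ⟨r, hr, hrσ, ?_, ?_⟩
  · have h1 := hmin ⟨fun _ _ => True, ⟨⟨fun _ => trivial, fun _ => trivial,
      fun _ _ => trivial⟩, fun _ _ _ => trivial⟩⟩
    simp only [Φ] at h1
    have h2 : (cut Γ (fun _ _ : Ω => True)) = 0 := by
      simp [cut]
    have h3 : ∀ a : Ω, (cls (fun _ _ : Ω => True) a).card = Fintype.card Ω := by
      intro a
      simp [cls]
    simp only [h2, h3, Nat.cast_zero, zero_add, sum_const, card_univ, nsmul_eq_mul] at h1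
    have h4 : 0 ≤ E * ∑ a, gf s0 ((cls r a).card) :=
      mul_nonneg hE (sum_nonneg fun a _ => gf_nonneg _ _)
    linarith
  · intro a ha S hS hS2
    set C := cls r a with hC
    rcases S.eq_empty_or_nonempty with h0 | hne
    · subst h0
      simp
    have hSpos : (0 : ℝ) < S.card := by exact_mod_cast card_pos.2 hne
    -- the refined relation
    let r' : Ω → Ω → Prop := fun b c => r b c ∧ (b ∈ S ↔ c ∈ S) ∧ (σ b ∈ S ↔ σ c ∈ S)
    have hr' : Equivalence r' := by
      refine ⟨fun b => ⟨hr.refl b, Iff.rfl, Iff.rfl⟩, ?_, ?_⟩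
      · rintro b c ⟨h1, h2, h3⟩
        exact ⟨hr.symm h1, h2.symm, h3.symm⟩
      · rintro b c e ⟨h1, h2, h3⟩ ⟨h4, h5, h6⟩
        exact ⟨hr.trans h1 h4, h2.trans h5, h3.trans h6⟩
    have hr'σ : ∀ b c, r' b c → r' (σ b) (σ c) := by
      rintro b c ⟨h1, h2, h3⟩
      refine ⟨hrσ b c h1, h3, ?_⟩
      rw [hσ, hσ]
      exact h2
    have h1 := hmin ⟨r', hr', hr'σ⟩
    simp only [Φ] at h1
    -- the potential
    have hpos : ∀ (q : Ω → Ω → Prop), Equivalence q → ∀ b, (0 : ℝ) < (cls q b).card := by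
      intro q hq b
      have : 0 < (cls q b).card := card_pos.2 ⟨b, (mem_cls q b b).2 (hq.refl b)⟩
      exact_mod_cast this
    have hpot : ∑ b, gf s0 ((cls r' b).card) + S.card ≤ ∑ b, gf s0 ((cls r b).card) := by
      have e1 : (S.card : ℝ) = ∑ b : Ω, (if b ∈ S then (1 : ℝ) else 0) := by
        rw [sum_ite_mem, univ_inter, sum_const, nsmul_eq_mul, mul_one]
      rw [e1, ← sum_add_distrib]
      apply sum_le_sum
      intro b _
      by_cases hb : b ∈ S
      · rw [if_pos hb]
        have e2 : cls r b = C := by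
          ext c
          rw [mem_cls, hC, mem_cls]
          have hab : r a b := (mem_cls r a b).1 (hS hb)
          exact ⟨fun h => hr.trans hab h, fun h => hr.trans (hr.symm hab) h⟩
        have e3 : cls r' b ⊆ S := by
          intro c hc
          rw [mem_cls] at hc
          exact hc.2.1.1 hb
        rw [e2]
        have e4 : gf s0 ((cls r' b).card) ≤ gf s0 (S.card) :=
          gf_mono hs0 (hpos r' hr' b) (Nat.cast_le.2 (card_le_card e3))
        have e5 : gf s0 (S.card) + 1 ≤ gf s0 (C.card) := by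
          apply gf_half hs0 hSpos _ ha
          exact_mod_cast hS2
        linarith
      · rw [if_neg hb, add_zero]
        apply gf_mono hs0 (hpos r' hr' b)
        apply Nat.cast_le.2
        apply card_le_card
        intro c hc
        rw [mem_cls] at hc ⊢
        exact hc.1
    -- the cut
    let P1 : Finset (Ω × Ω) := (S ×ˢ (C \ S)).filter (fun p => Γ.Adj p.1 p.2)
    have hP1 : (P1.card : ℝ) = ∑ b ∈ S, (dg Γ (C \ S) b : ℝ) := by
      have : P1.card = ∑ b ∈ S, dg Γ (C \ S) b := by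
        rw [card_filter, sum_product]
        apply sum_congr rfl
        intro b _
        rw [dg, card_filter]
      rw [this]
      push_cast
      rfl
    let P2 : Finset (Ω × Ω) := P1.image Prod.swap
    let P3 : Finset (Ω × Ω) := P1.image (fun p => (σ p.1, σ p.2))
    let P4 : Finset (Ω × Ω) := P2.image (fun p => (σ p.1, σ p.2))
    have c2 : P2.card ≤ P1.card := card_image_le
    have c3 : P3.card ≤ P1.card := card_image_le
    have c4 : P4.card ≤ P1.card := card_image_le.trans card_image_le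
    have hxor : ∀ b c, Γ.Adj b c → r b c → ¬ (b ∈ S ↔ c ∈ S) → (b, c) ∈ P1 ∪ P2 := by
      intro b c hbc hrbc hne
      by_cases hb : b ∈ S
      · have hc : c ∉ S := fun hc => hne ⟨fun _ => hc, fun _ => hb⟩
        apply mem_union_left
        rw [mem_filter, mem_product, mem_sdiff]
        exact ⟨⟨hb, (mem_cls r a c).2 (hr.trans ((mem_cls r a b).1 (hS hb)) hrbc), hc⟩, hbc⟩
      · have hc : c ∈ S := by
          by_contra hc
          exact hne ⟨fun h => absurd h hb, fun h => absurd h hc⟩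
        apply mem_union_right
        rw [mem_image]
        refine ⟨(c, b), ?_, rfl⟩
        rw [mem_filter, mem_product, mem_sdiff]
        exact ⟨⟨hc, (mem_cls r a b).2 (hr.trans ((mem_cls r a c).1 (hS hc)) (hr.symm hrbc)), hb⟩,
          hbc.symm⟩
    have hcut : cut Γ r' ≤ cut Γ r + 4 * P1.card := by
      have hsub : univ.filter (fun p : Ω × Ω => Γ.Adj p.1 p.2 ∧ ¬ r' p.1 p.2) ⊆
          univ.filter (fun p : Ω × Ω => Γ.Adj p.1 p.2 ∧ ¬ r p.1 p.2) ∪
            ((P1 ∪ P2) ∪ (P3 ∪ P4)) := by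
        rintro ⟨b, c⟩ hp
        rw [mem_filter] at hp
        obtain ⟨_, hadj, hn⟩ := hp
        by_cases hrbc : r b c
        · apply mem_union_right
          by_cases hS' : b ∈ S ↔ c ∈ S
          · have hσS : ¬ (σ b ∈ S ↔ σ c ∈ S) := fun h => hn ⟨hrbc, hS', h⟩
            have := hxor (σ b) (σ c) (hσΓ b c hadj) (hrσ b c hrbc) hσS
            apply mem_union_right
            rw [mem_union] at this ⊢
            rcases this with h | h
            · left
              rw [mem_image]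
              exact ⟨_, h, by simp [hσ]⟩
            · right
              rw [mem_image]
              exact ⟨_, h, by simp [hσ]⟩
          · exact mem_union_left _ (hxor b c hadj hrbc hS')
        · apply mem_union_left
          rw [mem_filter]
          exact ⟨mem_univ _, hadj, hrbc⟩
      have h5 := card_le_card hsub
      have h6 := card_union_le (univ.filter (fun p : Ω × Ω => Γ.Adj p.1 p.2 ∧ ¬ r p.1 p.2))
        ((P1 ∪ P2) ∪ (P3 ∪ P4))
      have h7 := card_union_le (P1 ∪ P2) (P3 ∪ P4)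
      have h8 := card_union_le P1 P2
      have h9 := card_union_le P3 P4
      have e1 : cut Γ r' = (univ.filter (fun p : Ω × Ω => Γ.Adj p.1 p.2 ∧ ¬ r' p.1 p.2)).card := by
        unfold cut
        congr!
      have e2 : cut Γ r = (univ.filter (fun p : Ω × Ω => Γ.Adj p.1 p.2 ∧ ¬ r p.1 p.2)).card := by
        unfold cut
        congr!
      omega
    have hcut' : (cut Γ r' : ℝ) ≤ cut Γ r + 4 * ∑ b ∈ S, (dg Γ (C \ S) b : ℝ) := by
      rw [← hP1]
      exact_mod_cast hcut
    have h10 := mul_le_mul_of_nonneg_left hpot hE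
    rw [mul_add] at h10
    linarith

end Pool.Agent.K4H82.ST
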