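import Pool.Agent.K4H82.ST.Mix2

/-!
# Parameters
-/

set_option autoImplicit false

open Finset Classical

namespace Pool.Agent.K4H82.ST

/-- The property of the pieces in the structure theorem. With `d = n ^ (1 / k)`: all degrees are
`0` or between `d / M` and `M d`; all components with an edge have at least `n / M` vertices; and
whenever `x` and `y` are joined by a walk (with at least one step), the numbers of walks of every
length `l ≥ M` of the same parity between `x` and `y` are between `c l * n ^ (l / k - 1)` and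
`n ^ (l / k - 1) / c l`, and (once `n ≥ 1 / c l`) there are at least `c l * n ^ (l / k - 1)`
paths of length `l` from `x` to `y` if `x ≠ y`, and cycles of length `l` through `x` if
`x = y`. -/
def Mixing (k : ℕ) (M : ℝ) (c : ℕ → ℝ) {n : ℕ} (G : SimpleGraph (Fin n)) : Prop :=
  (∀ x y, G.Adj x y →
    (n : ℝ) ^ (1 / (k : ℝ)) / M ≤ ((G.neighborSet x).ncard : ℝ) ∧
    ((G.neighborSet x).ncard : ℝ) ≤ M * (n : ℝ) ^ (1 / (k : ℝ)) ∧
    (n : ℝ) / M ≤ ({z | G.Reachable x z}.ncard : ℝ)) ∧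
  ∀ l : ℕ, M ≤ l → ∀ (x y : Fin n) (w : G.Walk x y), 0 < w.length → w.length % 2 = l % 2 →
    c l * (n : ℝ) ^ ((l : ℝ) / k - 1) ≤ ({p : G.Walk x y | p.length = l}.ncard : ℝ) ∧
    ({p : G.Walk x y | p.length = l}.ncard : ℝ) ≤ (n : ℝ) ^ ((l : ℝ) / k - 1) / c l ∧
    (1 / c l ≤ n →
      (x ≠ y → c l * (n : ℝ) ^ ((l : ℝ) / k - 1) ≤
        ({p : G.Walk x y | p.IsPath ∧ p.length = l}.ncard : ℝ)) ∧
      (x = y → c l * (n : ℝ) ^ ((l : ℝ) / k - 1) ≤
        ({p : G.Walk x x | p.IsCycle ∧ p.length = l}.ncard : ℝ)))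

theorem two_edges {V : Type*} [Fintype V] (G : SimpleGraph V) :
    2 * G.edgeSet.ncard = (univ.filter (fun p : V × V => G.Adj p.1 p.2)).card := by
  have h1 : G.edgeSet.ncard = G.edgeFinset.card := by
    rw [← SimpleGraph.coe_edgeFinset, Set.ncard_coe_finset]
  rw [h1, ← G.sum_degrees_eq_twice_card_edges, card_filter, ← univ_product_univ, sum_product]
  apply sum_congr rfl
  intro x _
  rw [← card_filter, ← G.card_neighborFinset_eq_degree]
  congr 1
  ext y
  simp

/-- The constant `c l`. -/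
noncomputable def clC (k : ℕ) (ε K σ₀ : ℝ) (l : ℕ) : ℝ :=
  min (min (loC k ε K σ₀ l / 2) (ε * loC k ε K σ₀ (l - 1) / 2))
    (min (1 / upC k K l) (1 / (1 + 2 * bdC k K l / loC k ε K σ₀ l +
      2 * bdC k K (l - 1) / loC k ε K σ₀ (l - 1)) ^ k))

theorem loC_pos {k : ℕ} {ε K σ₀ : ℝ} (hε : 0 < ε) (hK : 0 < K) (hσ : 0 < σ₀) (l : ℕ) :
    0 < loC k ε K σ₀ l := by
  have h1 : 0 < sC k ε := lt_min (by norm_num) (by positivity)
  have h2 : 0 < cC k ε K := by unfold cC; positivity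
  unfold loC
  positivity

theorem upC_pos {k : ℕ} {K : ℝ} (hK : 0 < K) (l : ℕ) : 0 < upC k K l := by
  unfold upC
  positivity

theorem bdC_nonneg {k : ℕ} {K : ℝ} (hK : 0 < K) (l : ℕ) : 0 ≤ bdC k K l := by
  unfold bdC
  positivity

theorem clC_pos {k : ℕ} {ε K σ₀ : ℝ} (hε : 0 < ε) (hK : 0 < K) (hσ : 0 < σ₀) (l : ℕ) :
    0 < clC k ε K σ₀ l := by
  have h1 := loC_pos (k := k) hε hK hσ l
  have h2 := loC_pos (k := k) hε hK hσ (l - 1)
  have h3 := upC_pos (k := k) hK l
  have h4 := bdC_nonneg (k := k) hK l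
  have h5 := bdC_nonneg (k := k) hK (l - 1)
  unfold clC
  apply lt_min
  · exact lt_min (by positivity) (by positivity)
  · exact lt_min (by positivity) (by positivity)

theorem rpow_dk {k : ℕ} (hk : 1 ≤ k) (n : ℕ) : ((n : ℝ) ^ (1 / (k : ℝ))) ^ k = n := by
  rw [← Real.rpow_natCast, ← Real.rpow_mul (Nat.cast_nonneg _)]
  have : 1 / (k : ℝ) * (k : ℝ) = 1 := by
    have : (k : ℝ) ≠ 0 := by positivity
    field_simp
  rw [this, Real.rpow_one]

theorem rpow_dl {k : ℕ} (hk : 1 ≤ k) (n l : ℕ) (hl : k ≤ l) :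
    (n : ℝ) ^ ((l : ℝ) / k - 1) = ((n : ℝ) ^ (1 / (k : ℝ))) ^ (l - k) := by
  rw [← Real.rpow_natCast, ← Real.rpow_mul (Nat.cast_nonneg _)]
  congr 1
  rw [Nat.cast_sub hl]
  have : (k : ℝ) ≠ 0 := by positivity
  field_simp

theorem le_rpow {k : ℕ} (hk : 1 ≤ k) {n : ℕ} {T : ℝ} (hT : 0 ≤ T) (h : T ^ k ≤ n) :
    T ≤ (n : ℝ) ^ (1 / (k : ℝ)) := by
  have h1 := Real.rpow_le_rpow (by positivity) h (by positivity : (0 : ℝ) ≤ 1 / (k : ℝ))
  rw [← Real.rpow_natCast, ← Real.rpow_mul hT] at h1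
  have : (k : ℝ) * (1 / (k : ℝ)) = 1 := by
    have : (k : ℝ) ≠ 0 := by positivity
    field_simp
  rwa [this, Real.rpow_one] at h1

/-- **Mixing.** -/
theorem Dat.mixing {n : ℕ} (D : Dat (Fin n)) (hd : D.d = (n : ℝ) ^ (1 / (D.k : ℝ))) (M : ℝ)
    (hM0 : 0 < M) (hM1 : 1 / M ≤ D.ε) (hM2 : D.K ≤ M) (hM3 : 1 / M ≤ D.σ₀ / 2)
    (hM4 : ((2 * D.k + 2 * mC D.k D.ε D.K + 2 : ℕ) : ℝ) ≤ M) :
    Mixing D.k M (clC D.k D.ε D.K D.σ₀) D.G := by
  have hdpos := D.hd
  have hε := D.hε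
  have hK := D.hK
  have hn0 : (0 : ℝ) ≤ n := Nat.cast_nonneg _
  have hnc : ∀ x, ((D.G.neighborSet x).ncard : ℝ) = (univ.filter (D.G.Adj x)).card := by
    intro x
    rw [← Set.ncard_coe_finset]
    congr 2
    ext y
    simp
  refine ⟨?_, ?_⟩
  · intro x y hxy
    have hx := D.P_of_adj hxy
    rw [hnc, ← hd]
    refine ⟨?_, ?_, ?_⟩
    · refine le_trans ?_ (D.deg_low hx)
      rw [div_eq_mul_one_div, mul_comm]
      exact mul_le_mul_of_nonneg_right hM1 hdpos.le
    · exact (D.degG x).trans (mul_le_mul_of_nonneg_right hM2 hdpos.le)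
    · have h1 := D.comp hx
      rw [Fintype.card_fin] at h1
      refine le_trans ?_ h1
      rw [div_eq_mul_one_div, mul_comm]
      exact mul_le_mul_of_nonneg_right hM3 hn0
  · intro l hl x y w hw hpar
    have hl' : 2 * D.k + 2 * D.m₀ + 2 ≤ l := by
      have : ((2 * D.k + 2 * mC D.k D.ε D.K + 2 : ℕ) : ℝ) ≤ l := hM4.trans hl
      exact_mod_cast this
    have hx := D.P_of_walk w hw
    have hr := D.rel_of_walk w l hpar
    have hkl : D.k ≤ l := by omega
    rw [rpow_dl D.hk n l hkl, ← hd]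
    have hcl := clC_pos (k := D.k) hε hK D.hσ₀ l
    have hlo := D.lo_pos l
    have hlo1 := D.lo_pos (l - 1)
    have hup := upC_pos (k := D.k) hK l
    have hbd := bdC_nonneg (k := D.k) hK l
    have hbd1 := bdC_nonneg (k := D.k) hK (l - 1)
    have hpow : 0 ≤ D.d ^ (l - D.k) := by positivity
    have hWc : ({p : D.G.Walk x y | p.length = l}.ncard : ℝ) = (W D.G l x y : ℝ) := by
      rw [W_eq_card, ← Set.ncard_coe_finset]
      congr 2
      ext p
      simp [SimpleGraph.mem_finsetWalkLength_iff]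
    have c1 : clC D.k D.ε D.K D.σ₀ l ≤ loC D.k D.ε D.K D.σ₀ l / 2 :=
      (min_le_left _ _).trans (min_le_left _ _)
    have c2 : clC D.k D.ε D.K D.σ₀ l ≤ D.ε * loC D.k D.ε D.K D.σ₀ (l - 1) / 2 :=
      (min_le_left _ _).trans (min_le_right _ _)
    have c3 : clC D.k D.ε D.K D.σ₀ l ≤ 1 / upC D.k D.K l :=
      (min_le_right _ _).trans (min_le_left _ _)
    set T : ℝ := 1 + 2 * bdC D.k D.K l / loC D.k D.ε D.K D.σ₀ l +
      2 * bdC D.k D.K (l - 1) / loC D.k D.ε D.K D.σ₀ (l - 1) with hT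
    have c4 : clC D.k D.ε D.K D.σ₀ l ≤ 1 / T ^ D.k :=
      (min_le_right _ _).trans (min_le_right _ _)
    have t1 : 0 ≤ 2 * bdC D.k D.K l / loC D.k D.ε D.K D.σ₀ l := by positivity
    have t2 : 0 ≤ 2 * bdC D.k D.K (l - 1) / loC D.k D.ε D.K D.σ₀ (l - 1) := by positivity
    have hT0 : 0 < T := by linarith
    rw [hWc]
    refine ⟨?_, ?_, fun hn => ⟨fun hxy => ?_, fun hxy => ?_⟩⟩
    · refine le_trans ?_ (D.lower' hx l (by omega) hr)
      exact mul_le_mul_of_nonneg_right (by linarith) hpow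
    · refine (D.upper x y l (by omega)).trans ?_
      rw [le_div_iff₀ hcl]
      have h3 : upC D.k D.K l * clC D.k D.ε D.K D.σ₀ l ≤ 1 := by
        have := mul_le_mul_of_nonneg_left c3 hup.le
        rwa [mul_one_div_cancel hup.ne'] at this
      calc upC D.k D.K l * D.d ^ (l - D.k) * clC D.k D.ε D.K D.σ₀ l =
            (upC D.k D.K l * clC D.k D.ε D.K D.σ₀ l) * D.d ^ (l - D.k) := by ring
        _ ≤ 1 * D.d ^ (l - D.k) := mul_le_mul_of_nonneg_right h3 hpow
        _ = _ := one_mul _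
    all_goals
      have hTn : T ^ D.k ≤ n := by
        refine le_trans ?_ hn
        rw [le_div_iff₀ hcl]
        have := mul_le_mul_of_nonneg_left c4 (by positivity : 0 ≤ T ^ D.k)
        rwa [mul_one_div_cancel (by positivity)] at this
      have hTd : T ≤ D.d := by rw [hd]; exact le_rpow D.hk hT0.le hTn
    · have h1 := D.paths hx hxy l (by omega) hr (by linarith)
      have h2 : ({p : D.G.Walk x y | p.IsPath ∧ p.length = l}.ncard : ℝ) =
          ((PS D.G l ∅ x y).card : ℝ) := by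
        rw [← Set.ncard_coe_finset]
        congr 2
        ext p
        simp only [Set.mem_ofPred_eq, mem_coe, mem_PS, notMem_empty, false_implies, implies_true,
          and_true]
        exact and_comm
      rw [h2]
      refine le_trans ?_ h1
      exact mul_le_mul_of_nonneg_right c1 hpow
    · subst hxy
      have h1 := D.cycles hx l (by omega) hr (by linarith)
      refine le_trans ?_ h1
      exact mul_le_mul_of_nonneg_right c2 hpow

end Pool.Agent.K4H82.ST
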