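import Pool.Agent.K4H82.ST.Fin1

/-!
# The structure theorem
-/

set_option autoImplicit false

open Finset Classical

namespace Pool.Agent.K4H82.ST

/-- **Core.** -/
theorem core {k : ℕ} (hk : 1 ≤ k) (η : ℝ) (hη : 0 < η) (hη1 : η ≤ 1) :
    ∃ (M : ℝ) (c : ℕ → ℝ), 0 < M ∧ (∀ l, 0 < c l) ∧ ∀ (n : ℕ) (G : SimpleGraph (Fin n)), M ≤ n →
      (∀ (v : Fin n) (p : G.Walk v v), p.IsCycle → 2 * k < p.length) →
      ∃ (G₁ : SimpleGraph (Fin n)) (R : Sys (Fin n)) (P₀ : Fin n → Prop) (hP₀ : Inv R P₀),
        G₁ ≤ G ∧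
        (G.edgeSet.ncard : ℝ) ≤ ((R.gr G₁ P₀ hP₀).edgeSet.ncard : ℝ) +
          η * (n : ℝ) ^ (1 + 1 / (k : ℝ)) ∧
        ∀ (P : Fin n → Prop) (hP : Inv R P), (∀ x, P x → P₀ x) →
          Mixing k M c (R.gr G₁ P hP) ∧
          ∀ x y i j, P x → R.r (x, i) (y, j) → (R.gr G₁ P hP).Reachable x y := by
  set K : ℝ := 256 / η with hKdef
  set σ₀ : ℝ := (η / 8) ^ k with hσdef
  set Λ : ℝ := Real.logb 2 (4 / σ₀) with hΛdef
  set ε : ℝ := η / (16 * Λ) with hεdef
  have hK : 0 < K := by positivity
  have hσ : 0 < σ₀ := by positivity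
  have hσ1 : σ₀ ≤ 1 := pow_le_one₀ (by positivity) (by linarith)
  have hΛ2 : 2 ≤ Λ := by
    have h1 : Real.logb 2 4 = 2 := by
      rw [show (4 : ℝ) = 2 ^ (2 : ℕ) by norm_num, Real.logb_pow, Real.logb_self_eq_one (by norm_num)]
      norm_num
    rw [← h1]
    apply Real.logb_le_logb_of_le (by norm_num) (by norm_num)
    rw [le_div_iff₀ hσ]
    nlinarith
  have hΛ : 0 < Λ := by linarith
  have hε : 0 < ε := by positivity
  have hεK : ε ≤ K := by
    rw [hεdef, hKdef, div_le_div_iff₀ (by positivity) hη]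
    nlinarith
  set M : ℝ := 1 / ε + K + 2 / σ₀ + ((2 * k + 2 * mC k ε K + 2 : ℕ) : ℝ) + (24 / η) ^ k +
    (2 / ε) ^ k with hM
  have q1 : 0 < 1 / ε := by positivity
  have q2 : 0 < 2 / σ₀ := by positivity
  have q3 : (0 : ℝ) ≤ ((2 * k + 2 * mC k ε K + 2 : ℕ) : ℝ) := Nat.cast_nonneg _
  have q4 : 0 < (24 / η) ^ k := by positivity
  have q5 : 0 < (2 / ε) ^ k := by positivity
  have hM0 : 0 < M := by linarith
  refine ⟨M, clC k ε K σ₀, hM0, clC_pos hε hK hσ, ?_⟩
  intro n G hn hg
  have hn0 : (0 : ℝ) ≤ n := Nat.cast_nonneg _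
  have hnpos : (0 : ℝ) < n := hM0.trans_le hn
  set d : ℝ := (n : ℝ) ^ (1 / (k : ℝ)) with hd
  have hdk : d ^ k = n := rpow_dk hk n
  have hd24 : 24 / η ≤ d := le_rpow hk (by positivity) (by linarith)
  have hdε : 2 / ε ≤ d := le_rpow hk (by positivity) (by linarith)
  have hdpos : 0 < d := lt_of_lt_of_le (by positivity) hd24
  have hnd : (n : ℝ) ^ (1 + 1 / (k : ℝ)) = n * d := by
    rw [Real.rpow_add hnpos, Real.rpow_one]
  have hs0 : σ₀ * n = (η * d / 8) ^ k := by
    rw [hσdef, ← hdk, ← mul_pow]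
    congr 1
    ring
  have hs0pos : 0 < σ₀ * n := by positivity
  obtain ⟨R, hexp, hloss⟩ := exists_sys G hk hg (K * d) (σ₀ * n) (4 * (ε * d)) (2 + η * d / 4)
    hs0pos (by positivity) (by have : 0 ≤ η * d / 4 := by positivity
                               linarith) (by
      rw [hs0]
      apply le_of_eq
      congr 1
      ring)
  have hP₀ : Inv R (fun x => σ₀ * n ≤ ((cls R.r (x, 0)).card : ℝ)) := by
    intro x y i j h
    simp only [R.card_inv h]
  refine ⟨capG G (K * d), R, _, hP₀, capG_le G _, ?_, ?_⟩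
  · -- the number of deleted edges
    set G' := R.gr (capG G (K * d)) _ hP₀ with hG'
    have hle : G' ≤ G := (R.gr_le _ _ _).trans (capG_le G _)
    have e1 := two_edges G
    have e2 := two_edges G'
    have e3 : (univ.filter (fun p : Fin n × Fin n => G.Adj p.1 p.2)).card =
        (univ.filter (fun p : Fin n × Fin n => G'.Adj p.1 p.2)).card +
        (univ.filter (fun p : Fin n × Fin n => G.Adj p.1 p.2 ∧ ¬ ((capG G (K * d)).Adj p.1 p.2 ∧
          R.r (p.1, 0) (p.2, 1) ∧ σ₀ * n ≤ ((cls R.r (p.1, 0)).card : ℝ)))).card := by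
      rw [← card_filter_add_card_filter_not (s := univ.filter
        (fun p : Fin n × Fin n => G.Adj p.1 p.2)) (fun p => G'.Adj p.1 p.2)]
      have s1 : (univ.filter (fun p : Fin n × Fin n => G.Adj p.1 p.2)).filter
          (fun p => G'.Adj p.1 p.2) = univ.filter (fun p : Fin n × Fin n => G'.Adj p.1 p.2) := by
        ext p
        simp only [mem_filter, mem_univ, true_and]
        exact ⟨fun h => h.2, fun h => ⟨hle h, h⟩⟩
      have s2 : (univ.filter (fun p : Fin n × Fin n => G.Adj p.1 p.2)).filter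
          (fun p => ¬ G'.Adj p.1 p.2) = univ.filter (fun p : Fin n × Fin n => G.Adj p.1 p.2 ∧
          ¬ ((capG G (K * d)).Adj p.1 p.2 ∧
          R.r (p.1, 0) (p.2, 1) ∧ σ₀ * n ≤ ((cls R.r (p.1, 0)).card : ℝ))) := by
        ext p
        simp only [mem_filter, mem_univ, true_and]
        exact Iff.rfl
      rw [s1, s2]
    have htail := Pool.TH815.GR.tail G hk hg K hK
    rw [Fintype.card_fin] at htail hloss
    rw [← hd] at htail
    rw [hnd] at htail ⊢
    have hgf : gf (σ₀ * n) (2 * n) = Λ := by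
      have e : 2 * (2 * (n : ℝ)) / (σ₀ * n) = 4 / σ₀ := by
        field_simp; ring
      rw [gf, e, ← hΛdef, max_eq_right hΛ.le]
    rw [hgf] at hloss
    have f1 : (64 : ℝ) / K = η / 4 := by rw [hKdef]; field_simp; norm_num
    rw [f1] at htail
    have f2 : 4 * (ε * d) * (2 * n * Λ) = η / 2 * (n * d) := by
      rw [hεdef]; field_simp; ring
    rw [f2] at hloss
    have f3 : 18 * (n : ℝ) ≤ 3 / 4 * η * (n * d) := by
      rw [div_le_iff₀ hη] at hd24
      nlinarith [mul_le_mul_of_nonneg_left hd24 hn0]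
    have f4 : 2 * (G.edgeSet.ncard : ℝ) = 2 * (G'.edgeSet.ncard : ℝ) +
        ((univ.filter (fun p : Fin n × Fin n => G.Adj p.1 p.2 ∧
          ¬ ((capG G (K * d)).Adj p.1 p.2 ∧ R.r (p.1, 0) (p.2, 1) ∧
          σ₀ * n ≤ ((cls R.r (p.1, 0)).card : ℝ)))).card : ℝ) := by
      have : 2 * G.edgeSet.ncard = 2 * G'.edgeSet.ncard +
        (univ.filter (fun p : Fin n × Fin n => G.Adj p.1 p.2 ∧
          ¬ ((capG G (K * d)).Adj p.1 p.2 ∧ R.r (p.1, 0) (p.2, 1) ∧
          σ₀ * n ≤ ((cls R.r (p.1, 0)).card : ℝ)))).card := by rw [e1, e2, e3]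
      exact_mod_cast this
    have f5 : (2 + η * d / 4) * n = 2 * n + η / 4 * (n * d) := by ring
    rw [f5] at hloss
    nlinarith
  · intro P hP hPP
    let D : Dat (Fin n) :=
      { G₁ := capG G (K * d)
        R := R
        P := P
        hP := hP
        k := k
        hk := hk
        hg := no_cycle_mono (capG_le G _) hg
        d := d
        K := K
        ε := ε
        σ₀ := σ₀
        hd := hdpos
        hε := hε
        hεK := hεK
        hσ₀ := hσ
        hdk := by rw [Fintype.card_fin]; exact hdk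
        hεd := by
          rw [div_le_iff₀ hε] at hdε
          linarith
        h2 := by
          rw [Fintype.card_fin]
          have h1 : 2 / σ₀ ≤ n := by linarith
          rw [div_le_iff₀ hσ] at h1
          linarith
        hbig := by
          intro x hx
          rw [Fintype.card_fin]
          exact hPP x hx
        hdeg := by
          intro x
          by_cases hx : (G.degree x : ℝ) ≤ K * d
          · refine le_trans (Nat.cast_le.2 ?_) hx
            rw [← G.card_neighborFinset_eq_degree]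
            apply card_le_card
            intro y hy
            rw [mem_filter] at hy
            rw [SimpleGraph.mem_neighborFinset]
            exact hy.2.1
          · have : univ.filter ((capG G (K * d)).Adj x) = ∅ := by
              rw [filter_eq_empty_iff]
              intro y _ h
              exact hx h.2.1
            rw [this, card_empty, Nat.cast_zero]
            positivity
        hexp := by
          intro b hb S hS h
          have h1 : σ₀ * n ≤ ((cls R.r b).card : ℝ) := by
            obtain ⟨x, i⟩ := b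
            rw [R.card_sheet]
            exact hPP x hb
          refine le_trans (le_of_eq ?_) (hexp b h1 S hS h)
          ring }
    refine ⟨?_, ?_⟩
    · refine D.mixing hd M hM0 ?_ ?_ ?_ ?_
      · show 1 / M ≤ ε
        rw [div_le_iff₀ hM0]
        have h1 : 1 / ε ≤ M := by linarith
        rw [div_le_iff₀ hε] at h1
        linarith
      · show K ≤ M
        linarith
      · show 1 / M ≤ σ₀ / 2
        rw [div_le_iff₀ hM0]
        have h1 : 2 / σ₀ ≤ M := by linarith
        rw [div_le_iff₀ hσ] at h1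
        linarith
      · show ((2 * k + 2 * mC k ε K + 2 : ℕ) : ℝ) ≤ M
        linarith
    · intro x y i j hx h
      exact D.reach hx h

end Pool.Agent.K4H82.ST
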