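import Pool.Agent.K4H82.ST.Fin2

/-!
# The girth conjecture and mixing bipartite graphs
-/

set_option autoImplicit false

open Finset Classical

namespace Pool.Agent.K4H82.ST

section cutlemma

variable {V : Type*} [Fintype V] [DecidableEq V]

theorem half_count (x y : V) (h : x ≠ y) :
    2 * (univ.filter (fun f : V → Bool => f x ≠ f y)).card = Fintype.card (V → Bool) := by
  have e : (univ.filter (fun f : V → Bool => f x ≠ f y)).card =
      (univ.filter (fun f : V → Bool => ¬ f x ≠ f y)).card := by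
    apply card_nbij' (fun f => Function.update f x (!f x)) (fun f => Function.update f x (!f x))
    · intro f hf
      rw [mem_coe, mem_filter] at hf ⊢
      refine ⟨mem_univ _, ?_⟩
      beta_reduce
      rw [Function.update_self, Function.update_of_ne (Ne.symm h)]
      have := hf.2
      revert this
      cases f x <;> cases f y <;> simp
    · intro f hf
      rw [mem_coe, mem_filter] at hf ⊢
      refine ⟨mem_univ _, ?_⟩
      beta_reduce
      rw [Function.update_self, Function.update_of_ne (Ne.symm h)]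
      have := hf.2
      revert this
      cases f x <;> cases f y <;> simp
    · intro f _
      simp
    · intro f _
      simp
  have h2 := card_filter_add_card_filter_not (s := (univ : Finset (V → Bool)))
    (fun f : V → Bool => f x ≠ f y)
  rw [← e, card_univ] at h2
  omega

theorem half_cut (G : SimpleGraph V) : ∃ f : V → Bool,
    (univ.filter (fun p : V × V => G.Adj p.1 p.2)).card ≤
      2 * (univ.filter (fun p : V × V => G.Adj p.1 p.2 ∧ f p.1 ≠ f p.2)).card := by
  by_contra hno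
  push Not at hno
  set S := univ.filter (fun p : V × V => G.Adj p.1 p.2) with hS
  have h1 : ∑ f : V → Bool, 2 * (univ.filter (fun p : V × V => G.Adj p.1 p.2 ∧
      f p.1 ≠ f p.2)).card < ∑ _f : V → Bool, S.card :=
    sum_lt_sum_of_nonempty univ_nonempty fun f _ => hno f
  have h2 : ∑ f : V → Bool, 2 * (univ.filter (fun p : V × V => G.Adj p.1 p.2 ∧
      f p.1 ≠ f p.2)).card = ∑ _f : V → Bool, S.card := by
    have e1 : ∀ f : V → Bool, (univ.filter (fun p : V × V => G.Adj p.1 p.2 ∧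
        f p.1 ≠ f p.2)).card = ∑ p ∈ S, if f p.1 ≠ f p.2 then 1 else 0 := by
      intro f
      rw [← card_filter, hS, filter_filter]
    simp only [e1]
    rw [← mul_sum, sum_comm, mul_sum, sum_const, card_univ, smul_eq_mul]
    have e2 : ∀ p ∈ S, 2 * ∑ f : V → Bool, (if f p.1 ≠ f p.2 then 1 else 0) =
        Fintype.card (V → Bool) := by
      intro p hp
      rw [← card_filter]
      rw [hS, mem_filter] at hp
      exact half_count p.1 p.2 hp.2.ne
    rw [sum_congr rfl e2, sum_const, smul_eq_mul, mul_comm]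
  omega

end cutlemma

theorem Mixing.mono {k : ℕ} {M M' : ℝ} {c : ℕ → ℝ} (hM : 0 < M) (h : M ≤ M') {n : ℕ}
    {G : SimpleGraph (Fin n)} (hG : Mixing k M c G) : Mixing k M' c G := by
  refine ⟨?_, fun l hl => hG.2 l (h.trans hl)⟩
  intro x y hxy
  obtain ⟨h1, h2, h3⟩ := hG.1 x y hxy
  have hd : 0 ≤ (n : ℝ) ^ (1 / (k : ℝ)) := by positivity
  refine ⟨le_trans ?_ h1, h2.trans ?_, le_trans ?_ h3⟩
  · exact div_le_div_of_nonneg_left hd hM h
  · exact mul_le_mul_of_nonneg_right h hd
  · exact div_le_div_of_nonneg_left (Nat.cast_nonneg _) hM h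

/-- **The girth conjecture for the parameter `k` says that there are mixing bipartite graphs.** -/
theorem girth_iff {k : ℕ} (hk : 1 ≤ k) :
    (∃ c : ℝ, 0 < c ∧ ∃ N : ℕ, ∀ n ≥ N, ∃ G : SimpleGraph (Fin n),
      (∀ (v : Fin n) (p : G.Walk v v), p.IsCycle → 2 * k < p.length) ∧
      c * (n : ℝ) ^ (1 + 1 / (k : ℝ)) ≤ (G.edgeSet.ncard : ℝ)) ↔
    ∃ (M : ℝ) (c : ℕ → ℝ), 0 < M ∧ (∀ l, 0 < c l) ∧ ∀ n : ℕ, M ≤ n →
      ∃ G : SimpleGraph (Fin n),
        (∀ (v : Fin n) (p : G.Walk v v), p.IsCycle → 2 * k < p.length) ∧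
        G.Colorable 2 ∧ (∃ x y, G.Adj x y) ∧
        (∀ x x' y y', G.Adj x x' → G.Adj y y' → G.Reachable x y) ∧ Mixing k M c G := by
  constructor
  · rintro ⟨c0, hc0, N0, hN0⟩
    set η : ℝ := min 1 (c0 / 4) with hη
    have hη0 : 0 < η := lt_min one_pos (by positivity)
    have hη1 : η ≤ 1 := min_le_left _ _
    have hη2 : η ≤ c0 / 4 := min_le_right _ _
    obtain ⟨M, c, hM, hc, hcore⟩ := core hk η hη0 hη1
    refine ⟨M + N0, c, by positivity, hc, fun n hn => ?_⟩
    have hnM : M ≤ n := by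
      have : (0 : ℝ) ≤ N0 := Nat.cast_nonneg _
      linarith
    have hnN : N0 ≤ n := by
      have : (N0 : ℝ) ≤ n := by linarith
      exact_mod_cast this
    obtain ⟨G, hg, hE⟩ := hN0 n hnN
    obtain ⟨f, hf⟩ := half_cut G
    let B : SimpleGraph (Fin n) :=
      { Adj := fun x y => G.Adj x y ∧ f x ≠ f y
        symm := ⟨fun x y h => ⟨h.1.symm, h.2.symm⟩⟩
        loopless := ⟨fun x h => h.2 rfl⟩ }
    have hBG : B ≤ G := fun x y h => h.1
    have hBE : G.edgeSet.ncard ≤ 2 * B.edgeSet.ncard := by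
      have e1 := two_edges G
      have e2 : 2 * B.edgeSet.ncard =
          (univ.filter (fun p : Fin n × Fin n => G.Adj p.1 p.2 ∧ f p.1 ≠ f p.2)).card := by
        rw [two_edges B]
        refine congrArg card (Finset.ext fun p => ?_)
        simp only [mem_filter, mem_univ, true_and]
        exact Iff.rfl
      omega
    obtain ⟨G₁, R, P₀, hP₀, hG₁, hloss, hall⟩ := hcore n B hnM (no_cycle_mono hBG hg)
    have hnpos : (0 : ℝ) < n := hM.trans_le hnM
    have hpow : 0 < (n : ℝ) ^ (1 + 1 / (k : ℝ)) := Real.rpow_pos_of_pos hnpos _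
    have hBE' : (G.edgeSet.ncard : ℝ) ≤ 2 * (B.edgeSet.ncard : ℝ) := by exact_mod_cast hBE
    have hpos : (0 : ℝ) < ((R.gr G₁ P₀ hP₀).edgeSet.ncard : ℝ) := by nlinarith
    obtain ⟨e, he⟩ : (R.gr G₁ P₀ hP₀).edgeSet.Nonempty := by
      rw [Set.nonempty_iff_ne_empty]
      intro h0
      rw [h0, Set.ncard_empty, Nat.cast_zero] at hpos
      exact lt_irrefl _ hpos
    obtain ⟨x₀, y₀, hxy₀⟩ : ∃ x y, (R.gr G₁ P₀ hP₀).Adj x y := by
      induction e using Sym2.ind with
      | _ x y => exact ⟨x, y, he⟩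
    set P : Fin n → Prop := fun x => P₀ x ∧ ∃ i j, R.r (x₀, i) (x, j) with hPdef
    have hP : Inv R P := by
      have key : ∀ x y i j, R.r (x, i) (y, j) → P x → P y := by
        rintro x y i j h ⟨h1, i', j', h2⟩
        refine ⟨(hP₀ x y i j h).1 h1, ?_⟩
        have k0 : ∀ i j : ZMod 2, j = i ∨ j + 1 = i := by decide
        rcases k0 i j' with rfl | h3
        · exact ⟨i', j, R.eqv.trans h2 h⟩
        · have h4 := R.swp _ _ h2
          simp only [sw, h3] at h4
          exact ⟨i' + 1, j, R.eqv.trans h4 h⟩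
      intro x y i j h
      exact ⟨key x y i j h, key y x j i (R.eqv.symm h)⟩
    obtain ⟨hmix, hreach⟩ := hall P hP (fun x hx => hx.1)
    have hleB : R.gr G₁ P hP ≤ B := (R.gr_le G₁ P hP).trans hG₁
    have hPx₀ : P x₀ := ⟨hxy₀.2.2, 0, 0, R.eqv.refl _⟩
    refine ⟨R.gr G₁ P hP, no_cycle_mono (hleB.trans hBG) hg, ?_, ⟨x₀, y₀, hxy₀.1, hxy₀.2.1, hPx₀⟩,
      ?_, hmix.mono hM (by have : (0 : ℝ) ≤ N0 := Nat.cast_nonneg _
                           linarith)⟩
    · have col : (R.gr G₁ P hP).Coloring Bool :=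
        SimpleGraph.Coloring.mk f (fun {x y} h => (hleB h).2)
      have := col.colorable
      rwa [Fintype.card_bool] at this
    · intro x x' y y' hx hy
      obtain ⟨_, i, j, h1⟩ := hx.2.2
      obtain ⟨_, i', j', h2⟩ := hy.2.2
      exact (hreach x₀ x i j hPx₀ h1).symm.trans (hreach x₀ y i' j' hPx₀ h2)
  · rintro ⟨M, c, hM, hc, h⟩
    refine ⟨1 / (2 * M ^ 2), by positivity, ⌈M⌉₊, fun n hn => ?_⟩
    have hnM : M ≤ n := (Nat.le_ceil _).trans (by exact_mod_cast hn)
    obtain ⟨G, hg, -, ⟨x, y, hxy⟩, -, hmix⟩ := h n hnM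
    refine ⟨G, hg, ?_⟩
    have hnpos : (0 : ℝ) < n := hM.trans_le hnM
    have hnd : (n : ℝ) ^ (1 + 1 / (k : ℝ)) = n * (n : ℝ) ^ (1 / (k : ℝ)) := by
      rw [Real.rpow_add hnpos, Real.rpow_one]
    set d : ℝ := (n : ℝ) ^ (1 / (k : ℝ)) with hd
    have hdpos : 0 < d := Real.rpow_pos_of_pos hnpos _
    have hfin : {z | G.Reachable x z}.Finite := Set.toFinite _
    have h1 := (hmix.1 x y hxy).2.2
    rw [Set.ncard_eq_toFinset_card _ hfin] at h1
    have h2 : ∀ z ∈ hfin.toFinset, d / M ≤ ((univ.filter (G.Adj z)).card : ℝ) := by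
      intro z hz
      rw [Set.Finite.mem_toFinset] at hz
      obtain ⟨w⟩ := (show G.Reachable x z from hz).symm
      have hz' : ∃ u, G.Adj z u := by
        cases w with
        | nil => exact ⟨y, hxy⟩
        | cons h _ => exact ⟨_, h⟩
      obtain ⟨u, hu⟩ := hz'
      refine (hmix.1 z u hu).1.trans (le_of_eq ?_)
      rw [← Set.ncard_coe_finset]
      congr 2
      ext t
      simp
    have h3 : (2 * G.edgeSet.ncard : ℝ) = ∑ z, ((univ.filter (G.Adj z)).card : ℝ) := by
      have : 2 * G.edgeSet.ncard = ∑ z, (univ.filter (G.Adj z)).card := by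
        rw [two_edges, card_filter, ← univ_product_univ, sum_product]
        apply sum_congr rfl
        intro z _
        rw [← card_filter]
      exact_mod_cast this
    have h4 : (n / M) * (d / M) ≤ ∑ z, ((univ.filter (G.Adj z)).card : ℝ) := by
      calc (n / M) * (d / M) ≤ (hfin.toFinset.card : ℝ) * (d / M) :=
            mul_le_mul_of_nonneg_right h1 (by positivity)
        _ = ∑ z ∈ hfin.toFinset, d / M := by rw [sum_const, nsmul_eq_mul]
        _ ≤ ∑ z ∈ hfin.toFinset, ((univ.filter (G.Adj z)).card : ℝ) := sum_le_sum h2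
        _ ≤ _ := sum_le_sum_of_subset_of_nonneg (subset_univ _) fun _ _ _ => Nat.cast_nonneg _
    rw [← h3] at h4
    rw [hnd]
    have h5 : 1 / (2 * M ^ 2) * (n * d) = (n / M) * (d / M) / 2 := by
      field_simp
    rw [h5]
    linarith

end Pool.Agent.K4H82.ST
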