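import Pool.Agent.K4H82.ST.Fin3
import Pool.Agent.K4H81.SP.Count
import Pool.Agent.TH815.GR6

/-!
# Odd cycles, regularity and counting
-/

set_option autoImplicit false

open Finset Classical

namespace Pool.Agent.K4H82.ST

/-- If a mixing graph has few cycles of one odd length, it is bipartite. -/
theorem Mixing.bip {k : ℕ} (hk : 1 ≤ k) {M : ℝ} {c : ℕ → ℝ} (hM : 0 < M) (hc : ∀ l, 0 < c l)
    {n : ℕ} (hn : 0 < n) {G : SimpleGraph (Fin n)} (hG : Mixing k M c G) (l : ℕ) (hl : M ≤ l)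
    (hodd : Odd l) (hcn : 1 / c l ≤ n)
    (hfew : ((∑ v, {p : G.Walk v v | p.IsCycle ∧ p.length = l}.ncard : ℕ) : ℝ) <
      c l / M * (n : ℝ) ^ ((l : ℝ) / k)) :
    G.Colorable 2 := by
  rw [SimpleGraph.two_colorable_iff_forall_loop_even]
  intro u w
  by_contra hev
  rw [Nat.not_even_iff_odd] at hev
  have hnpos : (0 : ℝ) < n := by exact_mod_cast hn
  have hz : ∀ z, G.Reachable u z → c l * (n : ℝ) ^ ((l : ℝ) / k - 1) ≤
      ({p : G.Walk z z | p.IsCycle ∧ p.length = l}.ncard : ℝ) := by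
    rintro z ⟨q⟩
    set w' : G.Walk z z := q.reverse.append (w.append q) with hw'
    have hlen : w'.length = w.length + 2 * q.length := by
      rw [hw', SimpleGraph.Walk.length_append, SimpleGraph.Walk.length_append,
        SimpleGraph.Walk.length_reverse]
      ring
    have hpos : 0 < w'.length := by
      rw [hlen]
      have := hev.pos
      omega
    have h1 : w'.length % 2 = l % 2 := by
      rw [hlen, Nat.add_mul_mod_self_left, Nat.odd_iff.1 hev, Nat.odd_iff.1 hodd]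
    exact ((hG.2 l hl z z w' hpos h1).2.2 hcn).2 rfl
  obtain ⟨y, hy⟩ : ∃ y, G.Adj u y := by
    cases w with
    | nil => simp at hev
    | cons h _ => exact ⟨_, h⟩
  have hcomp := (hG.1 u y hy).2.2
  have hfin : {z | G.Reachable u z}.Finite := Set.toFinite _
  rw [Set.ncard_eq_toFinset_card _ hfin] at hcomp
  have h2 : (hfin.toFinset.card : ℝ) * (c l * (n : ℝ) ^ ((l : ℝ) / k - 1)) ≤
      ((∑ v, {p : G.Walk v v | p.IsCycle ∧ p.length = l}.ncard : ℕ) : ℝ) := by
    push_cast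
    calc (hfin.toFinset.card : ℝ) * (c l * (n : ℝ) ^ ((l : ℝ) / k - 1))
        = ∑ z ∈ hfin.toFinset, c l * (n : ℝ) ^ ((l : ℝ) / k - 1) := by
          rw [sum_const, nsmul_eq_mul]
      _ ≤ ∑ z ∈ hfin.toFinset, ({p : G.Walk z z | p.IsCycle ∧ p.length = l}.ncard : ℝ) := by
          apply sum_le_sum
          intro z hzz
          rw [Set.Finite.mem_toFinset] at hzz
          exact hz z hzz
      _ ≤ _ := sum_le_sum_of_subset_of_nonneg (subset_univ _) fun _ _ _ => Nat.cast_nonneg _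
  have hcl := hc l
  have h3 : (n : ℝ) / M * (c l * (n : ℝ) ^ ((l : ℝ) / k - 1)) =
      c l / M * (n : ℝ) ^ ((l : ℝ) / k) := by
    rw [Real.rpow_sub hnpos, Real.rpow_one]
    field_simp
  have h4 : (n : ℝ) / M * (c l * (n : ℝ) ^ ((l : ℝ) / k - 1)) ≤
      (hfin.toFinset.card : ℝ) * (c l * (n : ℝ) ^ ((l : ℝ) / k - 1)) :=
    mul_le_mul_of_nonneg_right hcomp (by positivity)
  linarith

open Pool.Agent.K4H81.SP in
theorem reg_apply {k : ℕ} (hk : 1 ≤ k) {M δ : ℝ} (hM : 1 ≤ M) (hδ : 0 < δ) :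
    ∃ T : ℕ, ∀ (n : ℕ) (G : SimpleGraph (Fin n)), 1 ≤ n →
      (∀ (v : Fin n) (p : G.Walk v v), p.IsCycle → 2 * k < p.length) →
      (∀ x y, G.Adj x y → ((G.neighborSet x).ncard : ℝ) ≤ M * (n : ℝ) ^ (1 / (k : ℝ))) →
      ∃ p : Fin n → Fin T,
        (∀ f g : Fin n → ℝ,
          |∑ x, ∑ y, (G.adjMatrix ℝ x y - blk p (G.adjMatrix ℝ) x y) * (f x * g y)| ≤
          δ * (n : ℝ) ^ (1 / (k : ℝ)) * (√(∑ x, f x ^ 2) * √(∑ x, g x ^ 2))) ∧
        ∀ l : ℕ, 2 * k < l → (l : ℝ) ≤ 1 / δ →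
          |(G.adjMatrix ℝ ^ l).trace - (blk p (G.adjMatrix ℝ) ^ l).trace| ≤
            δ * (n : ℝ) ^ ((l : ℝ) / k) := by
  set L : ℕ := ⌈1 / δ⌉₊ with hL
  have hM0 : 0 < M := by linarith
  obtain ⟨T, hT⟩ := regularity_counting hk (C := (2 / M) ^ k) (ε := δ / M ^ (L + 1))
    (by positivity) (by positivity) L
  refine ⟨T, fun n G hn hg hdeg => ?_⟩
  have hn1 : (1 : ℝ) ≤ n := by exact_mod_cast hn
  set d : ℝ := (n : ℝ) ^ (1 / (k : ℝ)) with hd
  have hdk : d ^ k = n := rpow_dk hk n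
  have hd1 : 1 ≤ d := Real.one_le_rpow hn1 (by positivity)
  have hMd : 1 ≤ M * d := by nlinarith
  have hD1 : 1 ≤ ⌊M * d⌋₊ := by
    rw [Nat.le_floor_iff (by linarith)]
    exact_mod_cast hMd
  have hDle : (⌊M * d⌋₊ : ℝ) ≤ M * d := Nat.floor_le (by linarith)
  have hDge : M * d / 2 ≤ (⌊M * d⌋₊ : ℝ) := by
    have h1 := Nat.lt_floor_add_one (M * d)
    have h2 : (1 : ℝ) ≤ (⌊M * d⌋₊ : ℝ) := by exact_mod_cast hD1
    linarith
  obtain ⟨p, -, hp, hcount⟩ := hT (Fin n) G ⌊M * d⌋₊ hD1 hg (by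
    intro x
    rw [Nat.le_floor_iff (by linarith)]
    by_cases hx : ∃ y, G.Adj x y
    · obtain ⟨y, hy⟩ := hx
      refine le_trans (le_of_eq ?_) (hdeg x y hy)
      rw [← G.card_neighborFinset_eq_degree, ← Set.ncard_coe_finset, G.coe_neighborFinset]
    · have : G.degree x = 0 := by
        rw [← G.card_neighborFinset_eq_degree, card_eq_zero]
        ext y
        simp only [SimpleGraph.mem_neighborFinset, notMem_empty, iff_false]
        exact fun h => hx ⟨y, h⟩
      rw [this, Nat.cast_zero]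
      linarith) (by
    rw [Fintype.card_fin, ← hdk, ← mul_pow]
    apply pow_le_pow_left₀ (by linarith)
    rw [div_mul_eq_mul_div, le_div_iff₀ (by linarith)]
    linarith)
  refine ⟨p, fun f g => ?_, fun l hl hlδ => ?_⟩
  · have h1 := hp f g
    simp only [Matrix.sub_apply] at h1
    refine h1.trans ?_
    apply mul_le_mul_of_nonneg_right _ (mul_nonneg (nm_nonneg f) (nm_nonneg g))
    have h2 : M ≤ M ^ (L + 1) := le_self_pow₀ hM (by omega)
    calc δ / M ^ (L + 1) * (⌊M * d⌋₊ : ℝ) ≤ δ / M ^ (L + 1) * (M * d) :=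
          mul_le_mul_of_nonneg_left hDle (by positivity)
      _ = δ * d * (M / M ^ (L + 1)) := by ring
      _ ≤ δ * d * 1 := by
          apply mul_le_mul_of_nonneg_left _ (by positivity)
          rw [div_le_one (by positivity)]
          exact h2
      _ = δ * d := mul_one _
  · have hlL : l ≤ L := by
      have : (l : ℝ) ≤ L := hlδ.trans (Nat.le_ceil _)
      exact_mod_cast this
    refine (hcount l hl hlL).trans ?_
    have e : (n : ℝ) ^ ((l : ℝ) / k) = d ^ l := by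
      rw [hd, ← Real.rpow_natCast, ← Real.rpow_mul (Nat.cast_nonneg _)]
      congr 1
      ring
    rw [e]
    have h2 : M ^ l ≤ M ^ (L + 1) := pow_le_pow_right₀ hM (by omega)
    calc δ / M ^ (L + 1) * (⌊M * d⌋₊ : ℝ) ^ l ≤ δ / M ^ (L + 1) * (M * d) ^ l := by gcongr
      _ = δ * d ^ l * (M ^ l / M ^ (L + 1)) := by rw [mul_pow]; ring
      _ ≤ δ * d ^ l * 1 := by
          apply mul_le_mul_of_nonneg_left _ (by positivity)
          rw [div_le_one (by positivity)]
          exact h2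
      _ = δ * d ^ l := mul_one _

/-- Cycles of a subgraph. -/
theorem cyc_mono {n : ℕ} {G G' : SimpleGraph (Fin n)} (h : G' ≤ G) (l : ℕ) (v : Fin n) :
    {p : G'.Walk v v | p.IsCycle ∧ p.length = l}.ncard ≤
      {p : G.Walk v v | p.IsCycle ∧ p.length = l}.ncard := by
  have hfin : {p : G.Walk v v | p.IsCycle ∧ p.length = l}.Finite := by
    apply Set.Finite.subset (G.finsetWalkLength l v v).finite_toSet
    intro p hp
    rw [mem_coe, SimpleGraph.mem_finsetWalkLength_iff]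
    exact hp.2
  apply Set.ncard_le_ncard_of_injOn (fun p => p.mapLe h) _ _ hfin
  · rintro p ⟨hp1, hp2⟩
    refine ⟨SimpleGraph.Walk.IsCycle.mapLe h hp1, ?_⟩
    simpa using hp2
  · intro p _ q _ hpq
    exact SimpleGraph.Walk.map_injective_of_injective
      (f := SimpleGraph.Hom.ofLE h) (fun _ _ e => e) v v hpq

end Pool.Agent.K4H82.ST
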