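import Mathlib

/-!
# Growth of sets in expanders
-/

set_option autoImplicit false

open Finset

namespace Pool.Agent.K4H82.ST

variable {Ω : Type*} [DecidableEq Ω] (Γ : SimpleGraph Ω) [DecidableRel Γ.Adj]

/-- The number of neighbours of `b` in `S`. -/
def dg (S : Finset Ω) (b : Ω) : ℕ := (S.filter (fun c => Γ.Adj b c)).card

theorem dg_mono {S T : Finset Ω} (h : S ⊆ T) (b : Ω) : dg Γ S b ≤ dg Γ T b :=
  card_le_card (filter_subset_filter _ h)

theorem dg_add {S C : Finset Ω} (h : S ⊆ C) (b : Ω) : dg Γ (C \ S) b + dg Γ S b = dg Γ C b := by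
  rw [dg, dg, dg, ← card_union_of_disjoint, ← filter_union, sdiff_union_of_subset h]
  exact disjoint_filter_filter sdiff_disjoint

theorem dg_union_le (S T : Finset Ω) (b : Ω) : dg Γ (S ∪ T) b ≤ dg Γ S b + dg Γ T b := by
  rw [dg, filter_union]
  exact card_union_le _ _

theorem dg_symm (S T : Finset Ω) : ∑ b ∈ S, dg Γ T b = ∑ c ∈ T, dg Γ S c := by
  have := sum_card_bipartiteAbove_eq_sum_card_bipartiteBelow (s := S) (t := T) Γ.Adj
  simp only [bipartiteAbove, bipartiteBelow] at this
  simp only [dg]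
  rw [this]
  apply sum_congr rfl
  intro c _
  congr 1
  ext b
  simp only [mem_filter, Γ.adj_comm c b]

theorem growth (C : Finset Ω) (d K ε s c : ℝ) (hd : 0 < d) (hε : 0 < ε) (hεK : ε ≤ K)
    (hs : 0 < s) (hs1 : s ≤ 1 / 4) (hc : 0 < c) (hcK : 16 * K * c ≤ ε ^ 2 * s)
    (h1 : ∀ b ∈ C, ε * d ≤ (dg Γ C b : ℝ)) (h1' : ∀ b ∈ C, (dg Γ C b : ℝ) ≤ K * d)
    (h2 : ∀ S ⊆ C, 2 * S.card ≤ C.card → ε * d * S.card ≤ ∑ b ∈ S, (dg Γ (C \ S) b : ℝ))
    (L : ℕ → Finset Ω) (hL : ∀ m, L m ⊆ C)
    (h3 : ∀ m, ∀ b ∈ C, c * d ≤ (dg Γ (L m) b : ℝ) → b ∈ L (m + 1))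
    (h4 : s * C.card ≤ (L 0).card) (m : ℕ) :
    min (s + m * (ε * s / (8 * K))) (1 - s / 2 - 2 * c / ε) * C.card ≤
      ((L m ∪ L (m + 1)).card : ℝ) := by
  have hK : 0 < K := hε.trans_le hεK
  set N : ℝ := (C.card : ℝ) with hN
  have hN0 : 0 ≤ N := Nat.cast_nonneg _
  set g : ℝ := ε * s / (8 * K) with hg
  set κ : ℝ := 2 * c / ε with hκ
  have hg0 : 0 < g := by positivity
  have hκ0 : 0 < κ := by positivity
  have hκg : κ ≤ g := by
    rw [hκ, hg, div_le_div_iff₀ hε (by positivity)]
    nlinarith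
  have hgs : g ≤ s / 8 := by
    rw [hg, div_le_div_iff₀ (by positivity) (by norm_num)]
    nlinarith [mul_le_mul_of_nonneg_right hεK hs.le]
  have hcε : c ≤ ε * s / 16 := by
    have : κ ≤ s / 8 := hκg.trans hgs
    rw [hκ, div_le_iff₀ hε] at this
    linarith
  have hcε2 : c ≤ ε / 2 := by nlinarith
  -- loss
  have hloss : ∀ m, ((L m \ L (m + 2)).card : ℝ) ≤ κ * N := by
    intro m
    set Z := L m \ L (m + 2) with hZ
    have hZC : Z ⊆ C := sdiff_subset.trans (hL m)
    have e1 : ∑ b ∈ Z, (dg Γ (C \ L (m + 1)) b : ℝ) =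
        ∑ b ∈ C \ L (m + 1), (dg Γ Z b : ℝ) := by
      exact_mod_cast dg_symm Γ Z (C \ L (m + 1))
    have e2 : ∑ b ∈ C \ L (m + 1), (dg Γ Z b : ℝ) ≤ N * (c * d) := by
      calc ∑ b ∈ C \ L (m + 1), (dg Γ Z b : ℝ) ≤ ∑ b ∈ C \ L (m + 1), (c * d) := by
            apply sum_le_sum
            intro b hb
            rw [mem_sdiff] at hb
            have hlt : (dg Γ (L m) b : ℝ) < c * d := by
              by_contra hge
              exact hb.2 (h3 m b hb.1 (not_lt.1 hge))
            have : (dg Γ Z b : ℝ) ≤ dg Γ (L m) b := Nat.cast_le.2 (dg_mono Γ sdiff_subset b)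
            linarith
        _ = (C \ L (m + 1)).card * (c * d) := by rw [sum_const, nsmul_eq_mul]
        _ ≤ _ := by
            apply mul_le_mul_of_nonneg_right _ (by positivity)
            exact Nat.cast_le.2 (card_le_card sdiff_subset)
    have e3 : Z.card * (ε / 2 * d) ≤ ∑ b ∈ Z, (dg Γ (C \ L (m + 1)) b : ℝ) := by
      rw [← nsmul_eq_mul, ← sum_const]
      apply sum_le_sum
      intro b hb
      have hbC := hZC hb
      rw [hZ, mem_sdiff] at hb
      have hlt : (dg Γ (L (m + 1)) b : ℝ) < c * d := by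
        by_contra hge
        exact hb.2 (h3 (m + 1) b hbC (not_lt.1 hge))
      have hadd : (dg Γ (C \ L (m + 1)) b : ℝ) + dg Γ (L (m + 1)) b = dg Γ C b := by
        exact_mod_cast dg_add Γ (hL (m + 1)) b
      have := h1 b hbC
      have : c * d ≤ ε / 2 * d := mul_le_mul_of_nonneg_right hcε2 hd.le
      nlinarith
    have e4 : (Z.card : ℝ) * (ε / 2 * d) ≤ N * (c * d) := e3.trans (e1.le.trans e2)
    have e5 : (Z.card : ℝ) * ε ≤ 2 * c * N := by
      have : (Z.card * ε) * d ≤ (2 * c * N) * d := by nlinarith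
      exact le_of_mul_le_mul_right this hd
    rw [hκ, div_mul_eq_mul_div, le_div_iff₀ hε]
    exact e5
  -- one step
  have hstep : ∀ m, ((L m ∪ L (m + 1)).card : ℝ) +
      (((C \ (L m ∪ L (m + 1))) ∩ L (m + 2)).card : ℝ) - κ * N ≤
      ((L (m + 1) ∪ L (m + 2)).card : ℝ) := by
    intro m
    set U := L m ∪ L (m + 1) with hU
    set Z := L m \ L (m + 2) with hZ
    set New := (C \ U) ∩ L (m + 2) with hNew
    have hdisj : Disjoint (U \ Z) New := by
      rw [disjoint_left]
      intro b hb hb'
      rw [hNew, mem_inter, mem_sdiff] at hb'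
      rw [mem_sdiff] at hb
      exact hb'.1.2 hb.1
    have hsub : (U \ Z) ∪ New ⊆ L (m + 1) ∪ L (m + 2) := by
      intro b hb
      rw [mem_union] at hb
      rcases hb with hb | hb
      · rw [mem_sdiff, hU, mem_union, hZ, mem_sdiff, not_and, not_not] at hb
        rw [mem_union]
        rcases hb.1 with h | h
        · exact Or.inr (hb.2 h)
        · exact Or.inl h
      · rw [hNew, mem_inter] at hb
        exact mem_union_right _ hb.2
    have h5 := card_le_card hsub
    rw [card_union_of_disjoint hdisj] at h5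
    have h6 : U.card ≤ (U \ Z).card + Z.card := by
      have := card_le_card (show U ⊆ (U \ Z) ∪ Z by
        intro b hb
        by_cases hz : b ∈ Z
        · exact mem_union_right _ hz
        · exact mem_union_left _ (mem_sdiff.2 ⟨hb, hz⟩))
      exact this.trans (card_union_le _ _)
    have h7 : (U.card : ℝ) ≤ (U \ Z).card + Z.card := by exact_mod_cast h6
    have h8 : ((U \ Z).card : ℝ) + New.card ≤ (L (m + 1) ∪ L (m + 2)).card := by
      exact_mod_cast h5
    have := hloss m
    linarith
  -- gain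
  have hgain : ∀ m, s / 2 * N ≤ ((L m ∪ L (m + 1)).card : ℝ) →
      s / 2 * N ≤ ((C \ (L m ∪ L (m + 1))).card : ℝ) →
      2 * g * N ≤ (((C \ (L m ∪ L (m + 1))) ∩ L (m + 2)).card : ℝ) := by
    intro m hU1 hT1
    set U := L m ∪ L (m + 1) with hU
    set T := C \ U with hT
    have hUC : U ⊆ C := union_subset (hL m) (hL (m + 1))
    have hTC : T ⊆ C := sdiff_subset
    have hCT : C \ T = U := by rw [hT, Finset.sdiff_sdiff_eq_self hUC]
    have hcardTU : T.card + U.card = C.card := card_sdiff_add_card_eq_card hUC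
    have e1 : ε * d * (s / 2 * N) ≤ ∑ b ∈ T, (dg Γ U b : ℝ) := by
      have hsym : ∑ b ∈ T, (dg Γ U b : ℝ) = ∑ b ∈ U, (dg Γ T b : ℝ) := by
        exact_mod_cast dg_symm Γ T U
      by_cases hlt : 2 * U.card ≤ C.card
      · rw [hsym]
        refine le_trans ?_ (h2 U hUC hlt)
        exact mul_le_mul_of_nonneg_left hU1 (by positivity)
      · have := h2 T hTC (by omega)
        rw [hCT] at this
        exact (mul_le_mul_of_nonneg_left hT1 (by positivity)).trans this
    have e2 : ∑ b ∈ T, (dg Γ U b : ℝ) ≤ (T ∩ L (m + 2)).card * (K * d) + N * (2 * (c * d)) := by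
      rw [← sum_filter_add_sum_filter_not T (fun b => b ∈ L (m + 2))]
      apply add_le_add
      · rw [filter_mem_eq_inter]
        calc ∑ b ∈ T ∩ L (m + 2), (dg Γ U b : ℝ) ≤ ∑ b ∈ T ∩ L (m + 2), (K * d) := by
              apply sum_le_sum
              intro b hb
              rw [mem_inter] at hb
              exact (Nat.cast_le.2 (dg_mono Γ hUC b)).trans (h1' b (hTC hb.1))
          _ = _ := by rw [sum_const, nsmul_eq_mul]
      · calc ∑ b ∈ T with ¬ b ∈ L (m + 2), (dg Γ U b : ℝ)
            ≤ ∑ b ∈ T with ¬ b ∈ L (m + 2), (2 * (c * d)) := by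
              apply sum_le_sum
              intro b hb
              rw [mem_filter] at hb
              have hbC := hTC hb.1
              have hbU : b ∉ U := (mem_sdiff.1 hb.1).2
              rw [hU, mem_union, not_or] at hbU
              have l1 : (dg Γ (L m) b : ℝ) < c * d := by
                by_contra hge
                exact hbU.2 (h3 m b hbC (not_lt.1 hge))
              have l2 : (dg Γ (L (m + 1)) b : ℝ) < c * d := by
                by_contra hge
                exact hb.2 (h3 (m + 1) b hbC (not_lt.1 hge))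
              have l3 : (dg Γ U b : ℝ) ≤ dg Γ (L m) b + dg Γ (L (m + 1)) b := by
                exact_mod_cast dg_union_le Γ (L m) (L (m + 1)) b
              linarith
          _ = (T.filter (fun b => ¬ b ∈ L (m + 2))).card * (2 * (c * d)) := by
              rw [sum_const, nsmul_eq_mul]
          _ ≤ _ := by
              apply mul_le_mul_of_nonneg_right _ (by positivity)
              exact Nat.cast_le.2 (card_le_card ((filter_subset _ _).trans hTC))
    have e3 : ε * (s / 2 * N) * d ≤ ((T ∩ L (m + 2)).card * K + N * (2 * c)) * d := by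
      have := e1.trans e2
      nlinarith
    have e4 := le_of_mul_le_mul_right e3 hd
    have e5 : 2 * g * N * K = ε * s / 4 * N := by
      rw [hg]; field_simp; ring
    have e6 : 2 * c * N ≤ ε * s / 8 * N := mul_le_mul_of_nonneg_right (by linarith) hN0
    have e7 : 2 * g * N * K ≤ (T ∩ L (m + 2)).card * K := by
      have h0 : 0 ≤ ε * s / 8 * N := by positivity
      rw [e5]; nlinarith
    exact le_of_mul_le_mul_right e7 hK
  induction m with
  | zero =>
    calc min (s + ((0 : ℕ) : ℝ) * g) (1 - s / 2 - κ) * N ≤ s * N := by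
          apply mul_le_mul_of_nonneg_right _ hN0
          refine (min_le_left _ _).trans ?_
          simp
      _ ≤ (L 0).card := h4
      _ ≤ _ := Nat.cast_le.2 (card_le_card subset_union_left)
  | succ m ih =>
    have hst := hstep m
    have hcard : ((C \ (L m ∪ L (m + 1))).card : ℝ) + ((L m ∪ L (m + 1)).card : ℝ) = N := by
      rw [hN]
      exact_mod_cast card_sdiff_add_card_eq_card (union_subset (hL m) (hL (m + 1)))
    have hnn : (0 : ℝ) ≤ (((C \ (L m ∪ L (m + 1))) ∩ L (m + 2)).card : ℝ) := Nat.cast_nonneg _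
    by_cases hT : s / 2 * N ≤ ((C \ (L m ∪ L (m + 1))).card : ℝ)
    · have hU1 : s / 2 * N ≤ ((L m ∪ L (m + 1)).card : ℝ) := by
        refine le_trans ?_ ih
        apply mul_le_mul_of_nonneg_right _ hN0
        apply le_min
        · have : 0 ≤ (m : ℝ) * g := by positivity
          linarith
        · linarith
      have hga := hgain m hU1 hT
      have h9 : min (s + ((m + 1 : ℕ) : ℝ) * g) (1 - s / 2 - κ) ≤
          min (s + (m : ℝ) * g) (1 - s / 2 - κ) + g := by
        rcases min_cases (s + (m : ℝ) * g) (1 - s / 2 - κ) with ⟨e, _⟩ | ⟨e, _⟩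
        · rw [e]
          refine (min_le_left _ _).trans ?_
          push_cast
          linarith
        · rw [e]
          refine (min_le_right _ _).trans ?_
          linarith
      have h10 := mul_le_mul_of_nonneg_right h9 hN0
      have h11 : κ * N ≤ g * N := mul_le_mul_of_nonneg_right hκg hN0
      rw [show m + 1 + 1 = m + 2 by ring]
      nlinarith
    · push Not at hT
      have h9 : min (s + ((m + 1 : ℕ) : ℝ) * g) (1 - s / 2 - κ) * N ≤ (1 - s / 2 - κ) * N :=
        mul_le_mul_of_nonneg_right (min_le_right _ _) hN0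
      rw [show m + 1 + 1 = m + 2 by ring]
      nlinarith

end Pool.Agent.K4H82.ST
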