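import Pool.Agent.K4H82.ST.Walks
import Pool.Agent.K4H82.ST.Growth
import Pool.Agent.TH815.GR1

/-!
# Lower bounds for the number of walks in an expander
-/

set_option autoImplicit false

open Finset

namespace Pool.Agent.K4H82.ST

open Pool.Agent.H268R2.LB

section one

variable {Ω : Type*} [Fintype Ω] [DecidableEq Ω] (Γ : SimpleGraph Ω) [DecidableRel Γ.Adj]

/-- The vertices with many walks to `a`. -/
noncomputable def Lv (C : Finset Ω) (k : ℕ) (θ : ℝ) (a : Ω) (m : ℕ) : Finset Ω :=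
  C.filter (fun z => θ ^ m ≤ (W Γ (k + m) z a : ℝ))

theorem Lv_step (C : Finset Ω) (k : ℕ) (θ : ℝ) (hθ : 0 < θ) (a : Ω) (m : ℕ) (b : Ω) (hb : b ∈ C)
    (h : θ ≤ (dg Γ (Lv Γ C k θ a m) b : ℝ)) : b ∈ Lv Γ C k θ a (m + 1) := by
  rw [Lv, mem_filter]
  refine ⟨hb, ?_⟩
  rw [show k + (m + 1) = (k + m) + 1 by ring, W_succ, pow_succ]
  calc θ ^ m * θ ≤ θ ^ m * (dg Γ (Lv Γ C k θ a m) b : ℝ) :=
        mul_le_mul_of_nonneg_left h (by positivity)
    _ = ∑ u ∈ (Lv Γ C k θ a m).filter (fun c => Γ.Adj b c), θ ^ m := by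
        rw [sum_const, nsmul_eq_mul, dg, mul_comm]
    _ ≤ ∑ u ∈ (Lv Γ C k θ a m).filter (fun c => Γ.Adj b c), (W Γ (k + m) u a : ℝ) := by
        apply sum_le_sum
        intro u hu
        rw [mem_filter, Lv, mem_filter] at hu
        exact hu.1.2
    _ ≤ ∑ u ∈ univ.filter (Γ.Adj b), (W Γ (k + m) u a : ℝ) := by
        apply sum_le_sum_of_subset_of_nonneg
        · intro u hu
          rw [mem_filter] at hu
          exact mem_filter.2 ⟨mem_univ _, hu.2⟩
        · intro _ _ _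
          exact Nat.cast_nonneg _
    _ = _ := by push_cast; rfl

/-- **Lower bound.** In an expander all pairs of vertices are joined by many walks of every large
length of the right parity. -/
theorem walks_lower (C : Finset Ω) (d K ε s c : ℝ) (hd : 0 < d) (hε : 0 < ε) (hεK : ε ≤ K)
    (hs : 0 < s) (hs1 : s ≤ 1 / 4) (hc : 0 < c) (hcK : 16 * K * c ≤ ε ^ 2 * s)
    (h1 : ∀ b ∈ C, ε * d ≤ (dg Γ C b : ℝ)) (h1' : ∀ b ∈ C, (dg Γ C b : ℝ) ≤ K * d)
    (h2 : ∀ S ⊆ C, 2 * S.card ≤ C.card → ε * d * S.card ≤ ∑ b ∈ S, (dg Γ (C \ S) b : ℝ))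
    (k : ℕ) (a b : Ω)
    (ha : s * C.card ≤ ((C.filter (fun z => 1 ≤ W Γ k z a)).card : ℝ))
    (hb : s * C.card ≤ ((C.filter (fun z => 1 ≤ W Γ k z b)).card : ℝ))
    (m m' : ℕ) (hm : 1 ≤ s + m * (ε * s / (8 * K))) (hm' : 1 ≤ s + m' * (ε * s / (8 * K)))
    (hpar : ∀ z p q, W Γ p z a ≠ 0 → W Γ q z b ≠ 0 →
      ((p + q : ℕ) : ZMod 2) = ((2 * k + m + m' + 1 : ℕ) : ZMod 2)) :
    (1 / 4) * C.card * (c * d) ^ (m + m' + 1) ≤ (W Γ (2 * k + m + m' + 1) a b : ℝ) := by
  have hK : 0 < K := hε.trans_le hεK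
  set θ : ℝ := c * d with hθ
  have hθ0 : 0 < θ := by positivity
  set N : ℝ := (C.card : ℝ) with hN
  have hN0 : 0 ≤ N := Nat.cast_nonneg _
  have hκ : 2 * c / ε ≤ 1 / 32 := by
    rw [div_le_iff₀ hε]
    have e0 : ε * (ε * s) ≤ K * (ε * s) := mul_le_mul_of_nonneg_right hεK (by positivity)
    have e1 : 16 * K * c ≤ K * (ε * s) := by nlinarith
    have e2 : 16 * c ≤ ε * s := by
      have : K * (16 * c) ≤ K * (ε * s) := by linarith
      exact le_of_mul_le_mul_left this hK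
    nlinarith
  have hbase : ∀ x, s * N ≤ ((C.filter (fun z => 1 ≤ W Γ k z x)).card : ℝ) →
      s * N ≤ ((Lv Γ C k θ x 0).card : ℝ) := by
    intro x hx
    refine hx.trans (Nat.cast_le.2 (card_le_card ?_))
    intro z hz
    rw [mem_filter] at hz
    rw [Lv, mem_filter]
    refine ⟨hz.1, ?_⟩
    rw [pow_zero, add_zero]
    exact_mod_cast hz.2
  have hbig : ∀ x, s * N ≤ ((C.filter (fun z => 1 ≤ W Γ k z x)).card : ℝ) → ∀ r : ℕ,
      1 ≤ s + r * (ε * s / (8 * K)) →
      3 / 4 * N ≤ ((Lv Γ C k θ x r ∪ Lv Γ C k θ x (r + 1)).card : ℝ) := by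
    intro x hx r hr
    have := growth Γ C d K ε s c hd hε hεK hs hs1 hc hcK h1 h1' h2 (Lv Γ C k θ x)
      (fun m => filter_subset _ _) (fun m b hb h => Lv_step Γ C k θ hθ0 x m b hb h)
      (hbase x hx) r
    refine le_trans ?_ this
    apply mul_le_mul_of_nonneg_right _ hN0
    apply le_min
    · linarith
    · linarith
  have hA := hbig a ha m hm
  have hB := hbig b hb m' hm'
  set UA := Lv Γ C k θ a m ∪ Lv Γ C k θ a (m + 1) with hUA
  set UB := Lv Γ C k θ b m' ∪ Lv Γ C k θ b (m' + 1) with hUB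
  have hinter : 1 / 2 * N ≤ ((UA ∩ UB).card : ℝ) := by
    have e1 := card_union_add_card_inter UA UB
    have e2 : (UA ∪ UB).card ≤ C.card := by
      apply card_le_card
      apply union_subset
      · exact union_subset (filter_subset _ _) (filter_subset _ _)
      · exact union_subset (filter_subset _ _) (filter_subset _ _)
    have e3 : ((UA ∪ UB).card : ℝ) + (UA ∩ UB).card = UA.card + UB.card := by exact_mod_cast e1
    have e4 : ((UA ∪ UB).card : ℝ) ≤ N := by rw [hN]; exact_mod_cast e2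
    linarith
  have hsplit : ∀ p q, p + q = 2 * k + m + m' + 1 →
      (W Γ (2 * k + m + m' + 1) a b : ℝ) = ∑ z, (W Γ p z a : ℝ) * (W Γ q z b : ℝ) := by
    intro p q hpq
    rw [← hpq, W_add]
    push_cast
    apply sum_congr rfl
    intro z _
    rw [W_symm Γ p a z]
  have s1 := hsplit (k + m) (k + (m' + 1)) (by ring)
  have s2 := hsplit (k + (m + 1)) (k + m') (by ring)
  have hpoint : ∀ z ∈ UA ∩ UB, θ ^ (m + m' + 1) ≤
      (W Γ (k + m) z a : ℝ) * (W Γ (k + (m' + 1)) z b : ℝ) +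
      (W Γ (k + (m + 1)) z a : ℝ) * (W Γ (k + m') z b : ℝ) := by
    intro z hz
    rw [mem_inter, hUA, hUB, mem_union, mem_union] at hz
    simp only [Lv, mem_filter] at hz
    have n1 : (0 : ℝ) ≤ (W Γ (k + m) z a : ℝ) * (W Γ (k + (m' + 1)) z b : ℝ) := by positivity
    have n2 : (0 : ℝ) ≤ (W Γ (k + (m + 1)) z a : ℝ) * (W Γ (k + m') z b : ℝ) := by positivity
    have ne : ∀ (r : ℕ) (p : ℕ) (x : Ω), θ ^ r ≤ (W Γ p z x : ℝ) → W Γ p z x ≠ 0 := by
      intro r p x h h0
      rw [h0, Nat.cast_zero] at h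
      exact absurd h (not_le.2 (by positivity))
    rcases hz with ⟨⟨_, ha'⟩ | ⟨_, ha'⟩, ⟨_, hb'⟩ | ⟨_, hb'⟩⟩
    · exfalso
      have := hpar z _ _ (ne _ _ _ ha') (ne _ _ _ hb')
      have e : 2 * k + m + m' + 1 = (k + m + (k + m')) + 1 := by ring
      rw [e, Nat.cast_add _ 1] at this
      revert this
      generalize ((k + m + (k + m') : ℕ) : ZMod 2) = t
      revert t; decide
    · calc θ ^ (m + m' + 1) = θ ^ m * θ ^ (m' + 1) := by rw [← pow_add, add_assoc]
        _ ≤ (W Γ (k + m) z a : ℝ) * (W Γ (k + (m' + 1)) z b : ℝ) :=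
          mul_le_mul ha' hb' (by positivity) (by positivity)
        _ ≤ _ := by linarith
    · calc θ ^ (m + m' + 1) = θ ^ (m + 1) * θ ^ m' := by rw [← pow_add]; congr 1; ring
        _ ≤ (W Γ (k + (m + 1)) z a : ℝ) * (W Γ (k + m') z b : ℝ) :=
          mul_le_mul ha' hb' (by positivity) (by positivity)
        _ ≤ _ := by linarith
    · exfalso
      have := hpar z _ _ (ne _ _ _ ha') (ne _ _ _ hb')
      have e : k + (m + 1) + (k + (m' + 1)) = (2 * k + m + m' + 1) + 1 := by ring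
      rw [e, Nat.cast_add _ 1] at this
      revert this
      generalize ((2 * k + m + m' + 1 : ℕ) : ZMod 2) = t
      revert t; decide
  have hsum : ((UA ∩ UB).card : ℝ) * θ ^ (m + m' + 1) ≤
      2 * (W Γ (2 * k + m + m' + 1) a b : ℝ) := by
    calc ((UA ∩ UB).card : ℝ) * θ ^ (m + m' + 1) = ∑ z ∈ UA ∩ UB, θ ^ (m + m' + 1) := by
          rw [sum_const, nsmul_eq_mul]
      _ ≤ ∑ z ∈ UA ∩ UB, ((W Γ (k + m) z a : ℝ) * (W Γ (k + (m' + 1)) z b : ℝ) +
          (W Γ (k + (m + 1)) z a : ℝ) * (W Γ (k + m') z b : ℝ)) := sum_le_sum hpoint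
      _ ≤ ∑ z, ((W Γ (k + m) z a : ℝ) * (W Γ (k + (m' + 1)) z b : ℝ) +
          (W Γ (k + (m + 1)) z a : ℝ) * (W Γ (k + m') z b : ℝ)) := by
          apply sum_le_sum_of_subset_of_nonneg (subset_univ _)
          intro _ _ _
          positivity
      _ = _ := by
          rw [sum_add_distrib, ← s1, ← s2]
          ring
  have hfin : 1 / 2 * N * θ ^ (m + m' + 1) ≤ ((UA ∩ UB).card : ℝ) * θ ^ (m + m' + 1) :=
    mul_le_mul_of_nonneg_right hinter (by positivity)
  linarith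

end one

section two

variable {V : Type*} [Fintype V] [DecidableEq V] (G : SimpleGraph V) [DecidableRel G.Adj]

theorem one_le_W_of_NW {n : ℕ} {a b c d : V} (h : NW G n a b c d) : 1 ≤ W G n a d := by
  induction h with
  | @one a b h => rw [W_one, if_pos h]
  | @step n a b c d e h1 hadj hne ih =>
    rw [W_add]
    refine le_trans ?_ (single_le_sum (fun z _ => Nat.zero_le _) (mem_univ d))
    rw [W_one, if_pos hadj, mul_one]
    exact ih

/-- At least `(δ - 1) ^ k` vertices are ends of walks with `k` steps. -/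
theorem many_ends {k δ : ℕ} (hg : ∀ (v : V) (p : G.Walk v v), p.IsCycle → 2 * k < p.length)
    (hk : 1 ≤ k) (hδ : ∀ x y, G.Adj x y → δ ≤ (univ.filter (G.Adj x)).card) (x y : V)
    (hxy : G.Adj x y) :
    (δ - 1) ^ k ≤ (univ.filter (fun z => 1 ≤ W G k x z)).card := by
  classical
  obtain ⟨E, hE, hE'⟩ := Pool.TH815.GR.growthT (M := 2 * k) hg
    (fun _ => univ.filter (fun y => δ ≤ (univ.filter (G.Adj y)).card))
    (fun _ y => univ.filter (G.Adj y)) (fun _ => δ)
    (by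
      intro i y _ z hz
      rw [mem_filter] at hz
      exact ⟨mem_filter.2 ⟨mem_univ _, hδ z y hz.2.symm⟩, hz.2⟩)
    (by
      intro i y hy
      rw [mem_filter] at hy
      exact hy.2) (v := x) (by
      rw [mem_filter]
      exact ⟨mem_univ _, hδ x y hxy⟩) k le_rfl
  rw [prod_const, card_range] at hE
  refine hE.trans (card_le_card ?_)
  intro z hz
  rw [mem_filter]
  refine ⟨mem_univ _, ?_⟩
  rcases (hE' z hz).2 with ⟨h, _⟩ | ⟨b, c, h⟩
  · omega
  · exact one_le_W_of_NW G h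

/-- The bipartite double cover. -/
def DC : SimpleGraph (V × ZMod 2) where
  Adj a b := G.Adj a.1 b.1 ∧ b.2 = a.2 + 1
  symm := ⟨by
    rintro ⟨x, i⟩ ⟨y, j⟩ ⟨h1, h2⟩
    refine ⟨h1.symm, ?_⟩
    simp only at h2 ⊢
    subst h2
    have key : ∀ i : ZMod 2, i = i + 1 + 1 := by decide
    exact key i⟩
  loopless := ⟨by
    rintro ⟨x, i⟩ ⟨h1, _⟩
    exact G.loopless.irrefl x h1⟩

instance : DecidableRel (DC G).Adj := fun a b => by
  unfold DC
  infer_instance

omit [Fintype V] [DecidableEq V] [DecidableRel G.Adj] in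
theorem DC_adj (x y : V) (i j : ZMod 2) : (DC G).Adj (x, i) (y, j) ↔ G.Adj x y ∧ j = i + 1 :=
  Iff.rfl

theorem DC_nbrs (x : V) (i : ZMod 2) : univ.filter ((DC G).Adj (x, i)) =
    (univ.filter (G.Adj x)).image (fun u => (u, i + 1)) := by
  ext ⟨u, j⟩
  simp only [mem_filter, mem_univ, true_and, mem_image, Prod.mk.injEq, DC_adj]
  constructor
  · rintro ⟨h, rfl⟩
    exact ⟨u, h, rfl, rfl⟩
  · rintro ⟨u', h, rfl, rfl⟩
    exact ⟨h, rfl⟩

theorem W_DC (m : ℕ) (x y : V) (i j : ZMod 2) :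
    W (DC G) m (x, i) (y, j) = if j = i + m then W G m x y else 0 := by
  induction m generalizing x i with
  | zero =>
    simp only [W_zero, Prod.mk.injEq, Nat.cast_zero, add_zero]
    by_cases h1 : x = y <;> by_cases h2 : j = i
    · simp [h1, h2]
    · simp [h1, h2, Ne.symm h2]
    · simp [h1, h2]
    · simp [h1, h2]
  | succ m ih =>
    rw [W_succ, DC_nbrs, sum_image (by
      intro u _ u' _ h
      simpa using h)]
    simp only [ih]
    rw [W_succ]
    by_cases h : j = i + ((m + 1 : ℕ) : ZMod 2)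
    · have h' : j = i + 1 + (m : ZMod 2) := by rw [h]; push_cast; ring
      rw [if_pos h]
      exact sum_congr rfl fun u _ => if_pos h'
    · have h' : ¬ j = i + 1 + (m : ZMod 2) := by
        intro h'
        apply h
        rw [h']; push_cast; ring
      rw [if_neg h]
      exact sum_eq_zero fun u _ => if_neg h'

end two

end Pool.Agent.K4H82.ST
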