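import Pool.Agent.K4H82.ST.Walks

/-!
# Paths among the walks
-/

set_option autoImplicit false

open Finset

namespace Pool.Agent.K4H82.ST

variable {V : Type*} [Fintype V] [DecidableEq V] (G : SimpleGraph V) [DecidableRel G.Adj]

/-- The number of paths with `m` steps from `x` to `y` which avoid `F`. -/
def PC : ℕ → Finset V → V → V → ℕ
  | 0, F, x, y => if x ∈ F then 0 else if x = y then 1 else 0
  | m + 1, F, x, y => if x ∈ F then 0 else ∑ u ∈ univ.filter (G.Adj x), PC m (insert x F) u y

/-- An upper bound for the number of walks which are not paths. -/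
def Bd : ℕ → V → V → ℕ
  | 0, _, _ => 0
  | m + 1, x, y => ∑ u ∈ univ.filter (G.Adj x), Bd m u y +
      ∑ i ∈ range (m + 1), W G (i + 1) x x * W G (m - i) x y

theorem W_le_PC (m : ℕ) (F : Finset V) (x y : V) :
    W G m x y ≤ PC G m F x y + ∑ f ∈ F, ∑ i ∈ range (m + 1), W G i x f * W G (m - i) f y +
      Bd G m x y := by
  induction m generalizing F x with
  | zero =>
    by_cases hx : x ∈ F
    · have : W G 0 x y ≤ ∑ f ∈ F, ∑ i ∈ range (0 + 1), W G i x f * W G (0 - i) f y := by
        refine le_trans ?_ (single_le_sum (fun f _ => Nat.zero_le _) hx)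
        simp [W_zero]
      omega
    · simp [PC, hx, W_zero]
      omega
  | succ m ih =>
    by_cases hx : x ∈ F
    · have : W G (m + 1) x y ≤
          ∑ f ∈ F, ∑ i ∈ range (m + 1 + 1), W G i x f * W G (m + 1 - i) f y := by
        refine le_trans ?_ (single_le_sum (fun f _ => Nat.zero_le _) hx)
        refine le_trans ?_ (single_le_sum (fun i _ => Nat.zero_le _)
          (mem_range.2 (Nat.succ_pos (m + 1))))
        simp [W_zero]
      omega
    · rw [W_succ]
      have h1 : ∑ u ∈ univ.filter (G.Adj x), W G m u y ≤ ∑ u ∈ univ.filter (G.Adj x),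
          (PC G m (insert x F) u y + ∑ f ∈ insert x F, ∑ i ∈ range (m + 1),
            W G i u f * W G (m - i) f y + Bd G m u y) := sum_le_sum fun u _ => ih (insert x F) u
      refine h1.trans ?_
      rw [sum_add_distrib, sum_add_distrib]
      have h2 : ∑ u ∈ univ.filter (G.Adj x), PC G m (insert x F) u y = PC G (m + 1) F x y := by
        rw [PC, if_neg hx]
      have h3 : ∑ u ∈ univ.filter (G.Adj x), ∑ f ∈ insert x F, ∑ i ∈ range (m + 1),
            W G i u f * W G (m - i) f y =
          ∑ f ∈ insert x F, ∑ i ∈ range (m + 1), W G (i + 1) x f * W G (m - i) f y := by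
        rw [sum_comm]
        apply sum_congr rfl
        intro f _
        rw [sum_comm]
        apply sum_congr rfl
        intro i _
        rw [W_succ, sum_mul]
      have h4 : ∑ f ∈ F, ∑ i ∈ range (m + 1), W G (i + 1) x f * W G (m - i) f y ≤
          ∑ f ∈ F, ∑ i ∈ range (m + 1 + 1), W G i x f * W G (m + 1 - i) f y := by
        apply sum_le_sum
        intro f _
        rw [sum_range_succ' _ (m + 1)]
        refine le_trans (le_of_eq ?_) (Nat.le_add_right _ _)
        apply sum_congr rfl
        intro i _
        rw [Nat.add_sub_add_right]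
      rw [h2, h3, sum_insert hx, Bd]
      omega

/-- `B` bounds the number of closed walks. -/
theorem Bd_le (w : ℕ → ℕ) (hw : ∀ t z, W G t z z ≤ w t) (m : ℕ) (x y : V) :
    Bd G m x y ≤ m * ∑ t ∈ range m, w (t + 1) * W G (m - 1 - t) x y := by
  induction m generalizing x with
  | zero => simp [Bd]
  | succ m ih =>
    rw [Bd]
    have h1 : ∑ u ∈ univ.filter (G.Adj x), Bd G m u y ≤
        m * ∑ t ∈ range (m + 1), w (t + 1) * W G (m - t) x y := by
      calc ∑ u ∈ univ.filter (G.Adj x), Bd G m u y
          ≤ ∑ u ∈ univ.filter (G.Adj x), m * ∑ t ∈ range m, w (t + 1) * W G (m - 1 - t) u y :=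
            sum_le_sum fun u _ => ih u
        _ = m * ∑ t ∈ range m, w (t + 1) * W G (m - t) x y := by
            rw [← mul_sum, sum_comm]
            congr 1
            apply sum_congr rfl
            intro t ht
            rw [mem_range] at ht
            rw [← mul_sum, show m - t = (m - 1 - t) + 1 by omega, W_succ]
        _ ≤ _ := by
            apply Nat.mul_le_mul_left
            apply sum_le_sum_of_subset
            intro t ht
            rw [mem_range] at ht ⊢
            omega
    have h2 : ∑ i ∈ range (m + 1), W G (i + 1) x x * W G (m - i) x y ≤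
        ∑ t ∈ range (m + 1), w (t + 1) * W G (m - t) x y :=
      sum_le_sum fun i _ => Nat.mul_le_mul_right _ (hw _ _)
    calc ∑ u ∈ univ.filter (G.Adj x), Bd G m u y +
          ∑ i ∈ range (m + 1), W G (i + 1) x x * W G (m - i) x y
        ≤ m * ∑ t ∈ range (m + 1), w (t + 1) * W G (m - t) x y +
          ∑ t ∈ range (m + 1), w (t + 1) * W G (m - t) x y := Nat.add_le_add h1 h2
      _ = (m + 1) * ∑ t ∈ range (m + 1), w (t + 1) * W G (m + 1 - 1 - t) x y := by
          rw [Nat.add_sub_cancel]
          ring

/-- Almost all walks between different vertices are paths. -/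
theorem Bd_le' {k D : ℕ} (hk : 1 ≤ k)
    (hg : ∀ (v : V) (p : G.Walk v v), p.IsCycle → 2 * k < p.length)
    (hD1 : 1 ≤ D) (hD : ∀ x, (univ.filter (G.Adj x)).card ≤ D) (m : ℕ) (hm : 2 * k + 1 ≤ m)
    (x y : V) (hxy : x ≠ y) :
    Bd G m x y ≤ m * (m * (2 ^ m * (m + 1) * (2 ^ m * (m + 1)) * D ^ (m - k - 1))) := by
  refine (Bd_le G (fun t => 2 ^ t * (t + 1) * D ^ (max (t / 2) (t - k)))
    (fun t z => W_le G hg hD1 hD t z z) m x y).trans ?_
  apply Nat.mul_le_mul_left
  calc ∑ t ∈ range m, 2 ^ (t + 1) * (t + 1 + 1) * D ^ (max ((t + 1) / 2) (t + 1 - k)) *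
        W G (m - 1 - t) x y
      ≤ ∑ t ∈ range m, (2 ^ m * (m + 1) * (2 ^ m * (m + 1)) * D ^ (m - k - 1)) := by
        apply sum_le_sum
        intro t ht
        rw [mem_range] at ht
        by_cases ht' : t = m - 1
        · subst ht'
          rw [Nat.sub_self, W_zero, if_neg hxy, mul_zero]
          exact Nat.zero_le _
        · have h1 := W_le G hg hD1 hD (m - 1 - t) x y
          have h2 : 2 ^ (t + 1) * (t + 1 + 1) ≤ 2 ^ m * (m + 1) :=
            Nat.mul_le_mul (Nat.pow_le_pow_right (by norm_num) (by omega)) (by omega)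
          have h3 : 2 ^ (m - 1 - t) * (m - 1 - t + 1) ≤ 2 ^ m * (m + 1) :=
            Nat.mul_le_mul (Nat.pow_le_pow_right (by norm_num) (by omega)) (by omega)
          have h4 : D ^ (max ((t + 1) / 2) (t + 1 - k)) *
              D ^ (max ((m - 1 - t) / 2) (m - 1 - t - k)) ≤ D ^ (m - k - 1) := by
            rw [← pow_add]
            apply Nat.pow_le_pow_right hD1
            rcases max_cases ((t + 1) / 2) (t + 1 - k) with ⟨e1, _⟩ | ⟨e1, _⟩ <;>
            rcases max_cases ((m - 1 - t) / 2) (m - 1 - t - k) with ⟨e2, _⟩ | ⟨e2, _⟩ <;>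
            rw [e1, e2] <;> omega
          calc 2 ^ (t + 1) * (t + 1 + 1) * D ^ (max ((t + 1) / 2) (t + 1 - k)) *
                W G (m - 1 - t) x y
              ≤ 2 ^ (t + 1) * (t + 1 + 1) * D ^ (max ((t + 1) / 2) (t + 1 - k)) *
                (2 ^ (m - 1 - t) * (m - 1 - t + 1) *
                  D ^ (max ((m - 1 - t) / 2) (m - 1 - t - k))) := Nat.mul_le_mul_left _ h1
            _ = (2 ^ (t + 1) * (t + 1 + 1)) * (2 ^ (m - 1 - t) * (m - 1 - t + 1)) *
                (D ^ (max ((t + 1) / 2) (t + 1 - k)) *
                  D ^ (max ((m - 1 - t) / 2) (m - 1 - t - k))) := by ring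
            _ ≤ _ := Nat.mul_le_mul (Nat.mul_le_mul h2 h3) h4
    _ = _ := by rw [sum_const, card_range, smul_eq_mul]

/-- The paths with `m` steps from `x` to `y` which avoid `F`. -/
def PS (m : ℕ) (F : Finset V) (x y : V) : Finset (G.Walk x y) :=
  (G.finsetWalkLength m x y).filter (fun q => q.IsPath ∧ ∀ f ∈ F, f ∉ q.support)

theorem mem_PS (m : ℕ) (F : Finset V) (x y : V) (q : G.Walk x y) :
    q ∈ PS G m F x y ↔ q.length = m ∧ q.IsPath ∧ ∀ f ∈ F, f ∉ q.support := by
  rw [PS, mem_filter, SimpleGraph.mem_finsetWalkLength_iff]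

theorem PC_le (m : ℕ) (F : Finset V) (x y : V) : PC G m F x y ≤ (PS G m F x y).card := by
  induction m generalizing F x with
  | zero =>
    rw [PC]
    by_cases hx : x ∈ F
    · simp [hx]
    · rw [if_neg hx]
      by_cases hxy : x = y
      · subst hxy
        rw [if_pos rfl]
        apply card_pos.2
        refine ⟨SimpleGraph.Walk.nil, ?_⟩
        rw [mem_PS]
        refine ⟨rfl, SimpleGraph.Walk.IsPath.nil, ?_⟩
        intro f hf
        rw [SimpleGraph.Walk.support_nil, List.mem_singleton]
        rintro rfl
        exact hx hf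
      · simp [hxy]
  | succ m ih =>
    rw [PC]
    by_cases hx : x ∈ F
    · simp [hx]
    · rw [if_neg hx]
      calc ∑ u ∈ univ.filter (G.Adj x), PC G m (insert x F) u y
          ≤ ∑ u ∈ univ.filter (G.Adj x), (PS G m (insert x F) u y).card :=
            sum_le_sum fun u _ => ih (insert x F) u
        _ = ∑ u : {u // G.Adj x u}, (PS G m (insert x F) u y).card := by
            rw [← sum_subtype_eq_sum_filter]
            simp
        _ = (univ.sigma (fun u : {u // G.Adj x u} => PS G m (insert x F) u y)).card := by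
            rw [card_sigma]
        _ ≤ _ := by
            apply card_le_card_of_injOn (fun p => SimpleGraph.Walk.cons p.1.2 p.2)
            · rintro ⟨⟨u, hu⟩, q⟩ hq
              rw [mem_coe, mem_sigma] at hq
              have h := (mem_PS G m (insert x F) u y q).1 hq.2
              rw [mem_coe, mem_PS]
              refine ⟨?_, ?_, ?_⟩
              · simp [h.1]
              · rw [SimpleGraph.Walk.cons_isPath_iff]
                exact ⟨h.2.1, h.2.2 x (mem_insert_self x F)⟩
              · intro f hf
                rw [SimpleGraph.Walk.support_cons, List.mem_cons, not_or]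
                refine ⟨?_, h.2.2 f (mem_insert_of_mem hf)⟩
                rintro rfl
                exact hx hf
            · rintro ⟨⟨u, hu⟩, q⟩ _ ⟨⟨u', hu'⟩, q'⟩ _ he
              simp only [SimpleGraph.Walk.cons.injEq] at he
              obtain ⟨rfl, he2⟩ := he
              rw [heq_iff_eq] at he2
              subst he2
              rfl

/-- The number of walks is the number of walks. -/
theorem W_eq_card (m : ℕ) (x y : V) : W G m x y = (G.finsetWalkLength m x y).card := by
  induction m generalizing x with
  | zero =>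
    rw [W_zero]
    by_cases h : x = y
    · subst h
      simp [SimpleGraph.finsetWalkLength]
    · simp [SimpleGraph.finsetWalkLength, h]
  | succ m ih =>
    have e : ∀ n, (G.finsetWalkLength n x y).card = Fintype.card {p : G.Walk x y | p.length = n} := by
      intro n
      rw [SimpleGraph.card_set_walk_length_eq]
    rw [e]
    have h1 := G.adjMatrix_pow_apply_eq_card_walk (α := ℕ) (m + 1) x y
    have h2 : ∀ u, W G m u y = (G.adjMatrix ℕ ^ m) u y := by
      intro u
      rw [ih u, G.adjMatrix_pow_apply_eq_card_walk, ← SimpleGraph.card_set_walk_length_eq]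
      rfl
    rw [W_succ]
    simp only [h2]
    rw [pow_succ', Matrix.mul_apply] at h1
    rw [← Nat.cast_id (Fintype.card {p : G.Walk x y | p.length = m + 1}), ← h1, sum_filter]
    apply sum_congr rfl
    intro u _
    rw [SimpleGraph.adjMatrix_apply]
    split_ifs <;> simp

end Pool.Agent.K4H82.ST
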