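import Pool.Agent.K4H82.ST.Str
import Pool.Agent.K4H82.ST.Paths

/-!
# Mixing
-/

set_option autoImplicit false

open Finset Classical

namespace Pool.Agent.K4H82.ST

variable {V : Type*} [Fintype V] [DecidableEq V]

/-- the constants -/
noncomputable def sC (k : ℕ) (ε : ℝ) : ℝ := min (1 / 4) ((ε / 2) ^ k / 2)

/-- the constants -/
noncomputable def cC (k : ℕ) (ε K : ℝ) : ℝ := ε ^ 2 * sC k ε / (16 * K)

/-- the constants -/
noncomputable def mC (k : ℕ) (ε K : ℝ) : ℕ := ⌈8 * K / (ε * sC k ε)⌉₊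

/-- The data of a decomposition. -/
structure Dat (V : Type*) [Fintype V] [DecidableEq V] where
  G₁ : SimpleGraph V
  R : Sys V
  P : V → Prop
  hP : Inv R P
  k : ℕ
  hk : 1 ≤ k
  hg : ∀ (v : V) (p : G₁.Walk v v), p.IsCycle → 2 * k < p.length
  d : ℝ
  K : ℝ
  ε : ℝ
  σ₀ : ℝ
  hd : 0 < d
  hε : 0 < ε
  hεK : ε ≤ K
  hσ₀ : 0 < σ₀
  hdk : d ^ k = Fintype.card V
  hεd : 2 ≤ ε * d
  h2 : 2 ≤ σ₀ * Fintype.card V
  hbig : ∀ x, P x → σ₀ * Fintype.card V ≤ ((cls R.r (x, 0)).card : ℝ)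
  hdeg : ∀ x, ((univ.filter (G₁.Adj x)).card : ℝ) ≤ K * d
  hexp : ∀ b : V × ZMod 2, P b.1 → ∀ S ⊆ cls R.r b, 2 * S.card ≤ (cls R.r b).card →
    ε * d * S.card ≤ ∑ c ∈ S, (dg (DC G₁) (cls R.r b \ S) c : ℝ)

namespace Dat

variable (D : Dat V)

/-- The graph. -/
noncomputable def G : SimpleGraph V := D.R.gr D.G₁ D.P D.hP

theorem G_le : D.G ≤ D.G₁ := D.R.gr_le D.G₁ D.P D.hP

theorem hgG : ∀ (v : V) (p : D.G.Walk v v), p.IsCycle → 2 * D.k < p.length :=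
  no_cycle_mono D.G_le D.hg

theorem adj_iff (x y : V) : D.G.Adj x y ↔ D.G₁.Adj x y ∧ D.R.r (x, 0) (y, 1) ∧ D.P x := Iff.rfl

theorem DC_iff (a b : V × ZMod 2) :
    (DC D.G).Adj a b ↔ (DC D.G₁).Adj a b ∧ D.R.r a b ∧ D.P a.1 := D.R.DC_iff D.G₁ D.P D.hP a b

theorem P_of_adj {x y : V} (h : D.G.Adj x y) : D.P x := h.2.2

theorem P_cls {b c : V × ZMod 2} (hb : D.P b.1) (hc : c ∈ cls D.R.r b) : D.P c.1 := by
  obtain ⟨x, i⟩ := b
  obtain ⟨y, j⟩ := c
  rw [mem_cls] at hc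
  exact (D.hP _ _ _ _ hc).1 hb

theorem degG (x : V) : ((univ.filter (D.G.Adj x)).card : ℝ) ≤ D.K * D.d := by
  refine le_trans (Nat.cast_le.2 (card_le_card ?_)) (D.hdeg x)
  intro y hy
  rw [mem_filter] at hy ⊢
  exact ⟨hy.1, D.G_le hy.2⟩

theorem dg_eq {b : V × ZMod 2} (hb : D.P b.1) (T : Finset (V × ZMod 2)) (hT : T ⊆ cls D.R.r b)
    {c : V × ZMod 2} (hc : c ∈ cls D.R.r b) : dg (DC D.G) T c = dg (DC D.G₁) T c := by
  rw [dg, dg]
  congr 1
  apply filter_congr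
  intro e he
  rw [D.DC_iff]
  constructor
  · exact fun h => h.1
  · intro h
    refine ⟨h, ?_, D.P_cls hb hc⟩
    have h1 := (mem_cls _ _ _).1 hc
    have h2 := (mem_cls _ _ _).1 (hT he)
    exact D.R.eqv.trans (D.R.eqv.symm h1) h2

theorem card_cls {b : V × ZMod 2} (hb : D.P b.1) :
    D.σ₀ * Fintype.card V ≤ ((cls D.R.r b).card : ℝ) := by
  obtain ⟨x, i⟩ := b
  rw [D.R.card_sheet]
  exact D.hbig x hb

theorem exp' {b : V × ZMod 2} (hb : D.P b.1) (S : Finset (V × ZMod 2)) (hS : S ⊆ cls D.R.r b)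
    (h : 2 * S.card ≤ (cls D.R.r b).card) :
    D.ε * D.d * S.card ≤ ∑ c ∈ S, (dg (DC D.G) (cls D.R.r b \ S) c : ℝ) := by
  refine (D.hexp b hb S hS h).trans (le_of_eq ?_)
  apply sum_congr rfl
  intro c hc
  rw [D.dg_eq hb _ sdiff_subset (hS hc)]

theorem dg_low {b : V × ZMod 2} (hb : D.P b.1) {c : V × ZMod 2} (hc : c ∈ cls D.R.r b) :
    D.ε * D.d ≤ (dg (DC D.G) (cls D.R.r b) c : ℝ) := by
  have h1 : 2 * ({c} : Finset (V × ZMod 2)).card ≤ (cls D.R.r b).card := by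
    rw [card_singleton]
    have := D.h2.trans (D.card_cls hb)
    exact_mod_cast this
  have h2 := D.exp' hb {c} (by simpa using hc) h1
  rw [card_singleton, sum_singleton] at h2
  have h3 : (dg (DC D.G) (cls D.R.r b \ {c}) c : ℝ) ≤ dg (DC D.G) (cls D.R.r b) c :=
    Nat.cast_le.2 (dg_mono _ sdiff_subset c)
  have h4 : D.ε * D.d * ((1 : ℕ) : ℝ) = D.ε * D.d := by simp
  linarith

theorem dg_le_deg (T : Finset (V × ZMod 2)) (c : V × ZMod 2) :
    dg (DC D.G) T c ≤ (univ.filter (D.G.Adj c.1)).card := by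
  obtain ⟨x, i⟩ := c
  calc dg (DC D.G) T (x, i) ≤ (univ.filter ((DC D.G).Adj (x, i))).card := by
        rw [dg]
        apply card_le_card
        intro e he
        rw [mem_filter] at he ⊢
        exact ⟨mem_univ _, he.2⟩
    _ = ((univ.filter (D.G.Adj x)).image (fun u => (u, i + 1))).card := by rw [DC_nbrs]
    _ ≤ _ := card_image_le

theorem deg_low {x : V} (hx : D.P x) : D.ε * D.d ≤ ((univ.filter (D.G.Adj x)).card : ℝ) := by
  have h1 : (x, (0 : ZMod 2)) ∈ cls D.R.r (x, 0) := (mem_cls _ _ _).2 (D.R.eqv.refl _)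
  exact (D.dg_low (b := (x, 0)) hx h1).trans (Nat.cast_le.2 (D.dg_le_deg _ _))

theorem exists_nbr {x : V} (hx : D.P x) : ∃ y, D.G.Adj x y := by
  have h1 := D.hεd.trans (D.deg_low hx)
  have h2 : 0 < (univ.filter (D.G.Adj x)).card := by
    have : (0 : ℝ) < (univ.filter (D.G.Adj x)).card := by linarith
    exact_mod_cast this
  obtain ⟨y, hy⟩ := card_pos.1 h2
  exact ⟨y, (mem_filter.1 hy).2⟩

/-- the constants -/
noncomputable def s : ℝ := sC D.k D.ε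

/-- the constants -/
noncomputable def c : ℝ := cC D.k D.ε D.K

/-- the constants -/
noncomputable def m₀ : ℕ := mC D.k D.ε D.K

theorem hK : 0 < D.K := D.hε.trans_le D.hεK

theorem s_pos : 0 < D.s := lt_min (by norm_num) (by have := D.hε; positivity)

theorem c_eq : D.c = D.ε ^ 2 * D.s / (16 * D.K) := rfl

theorem c_pos : 0 < D.c := by
  have := D.hε
  have := D.hK
  have := D.s_pos
  rw [c_eq]
  positivity

theorem base {b : V × ZMod 2} (hb : D.P b.1) {a : V × ZMod 2} (ha : a ∈ cls D.R.r b) :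
    D.s * (cls D.R.r b).card ≤
      (((cls D.R.r b).filter (fun z => 1 ≤ W (DC D.G) D.k z a)).card : ℝ) := by
  obtain ⟨u, i⟩ := a
  have hPu : D.P u := D.P_cls hb ha
  obtain ⟨v, hv⟩ := D.exists_nbr hPu
  have h1 := many_ends D.G (k := D.k) (δ := ⌈D.ε * D.d⌉₊) D.hgG D.hk (by
    intro x y hxy
    rw [Nat.ceil_le]
    exact D.deg_low (D.P_of_adj hxy)) u v hv
  have h2 : (univ.filter (fun z => 1 ≤ W D.G D.k u z)).card ≤
      ((cls D.R.r b).filter (fun z => 1 ≤ W (DC D.G) D.k z (u, i))).card := by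
    apply card_le_card_of_injOn (fun z => (z, i + (D.k : ZMod 2)))
    · intro z hz
      rw [mem_coe, mem_filter] at hz
      have k2 : ∀ i t : ZMod 2, i = i + t + t := by decide
      rw [mem_coe, mem_filter, mem_cls]
      refine ⟨D.R.eqv.trans ((mem_cls _ _ _).1 ha) ?_, ?_⟩
      · apply rel_of_W (DC D.G) D.R.eqv (fun a b h => ((D.DC_iff a b).1 h).2.1) D.k
        rw [W_DC, if_pos rfl]
        omega
      · rw [W_DC, if_pos (k2 _ _), W_symm]
        exact hz.2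
    · intro z _ z' _ h
      simpa using h
  have h3 : ((cls D.R.r b).card : ℝ) ≤ 2 * Fintype.card V := by
    have h4 : (cls D.R.r b).card ≤ Fintype.card (V × ZMod 2) := card_le_univ _
    rw [Fintype.card_prod, ZMod.card] at h4
    have h5 : ((cls D.R.r b).card : ℝ) ≤ Fintype.card V * 2 := by exact_mod_cast h4
    linarith
  have hn0 : (0 : ℝ) ≤ Fintype.card V := Nat.cast_nonneg _
  have hs := D.s_pos
  have h6 : D.s ≤ (D.ε / 2) ^ D.k / 2 := min_le_right _ _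
  have h7 : D.s * (cls D.R.r b).card ≤ (D.ε / 2 * D.d) ^ D.k := by
    calc D.s * (cls D.R.r b).card ≤ D.s * (2 * Fintype.card V) :=
          mul_le_mul_of_nonneg_left h3 hs.le
      _ ≤ (D.ε / 2) ^ D.k / 2 * (2 * Fintype.card V) :=
          mul_le_mul_of_nonneg_right h6 (by positivity)
      _ = _ := by rw [mul_pow, D.hdk]; ring
  have h8 : (D.ε / 2 * D.d) ^ D.k ≤ (((⌈D.ε * D.d⌉₊ - 1) ^ D.k : ℕ) : ℝ) := by
    have h9 : D.ε * D.d ≤ (⌈D.ε * D.d⌉₊ : ℝ) := Nat.le_ceil _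
    have h10 := D.hεd
    have h11 : (1 : ℝ) ≤ (⌈D.ε * D.d⌉₊ : ℝ) := by linarith
    push_cast
    apply pow_le_pow_left₀ (by linarith)
    rw [Nat.cast_sub (by exact_mod_cast h11)]
    push_cast
    linarith
  exact h7.trans (h8.trans (Nat.cast_le.2 (h1.trans h2)))

theorem hm₀ (m : ℕ) (h : D.m₀ ≤ m) : 1 ≤ D.s + m * (D.ε * D.s / (8 * D.K)) := by
  have h1 := D.hε
  have h2 := D.hK
  have h3 := D.s_pos
  have h4 : 8 * D.K / (D.ε * D.s) ≤ m := (Nat.le_ceil _).trans (Nat.cast_le.2 h)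
  have h5 : 1 ≤ (m : ℝ) * (D.ε * D.s / (8 * D.K)) := by
    calc (1 : ℝ) = 8 * D.K / (D.ε * D.s) * (D.ε * D.s / (8 * D.K)) := by field_simp
      _ ≤ _ := mul_le_mul_of_nonneg_right h4 (by positivity)
  linarith

/-- **Lower bound.** -/
theorem lower {x y : V} (hx : D.P x) (l : ℕ) (hl : 2 * D.k + 2 * D.m₀ + 1 ≤ l)
    (hr : D.R.r (x, 0) (y, (l : ZMod 2))) :
    D.σ₀ / 4 * D.c ^ (l - 2 * D.k) * D.d ^ (l - D.k) ≤ (W D.G l x y : ℝ) := by
  have hε := D.hε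
  have hK := D.hK
  have hs := D.s_pos
  have hc := D.c_pos
  have hd := D.hd
  obtain ⟨m', rfl⟩ : ∃ m', l = 2 * D.k + D.m₀ + m' + 1 := ⟨l - 2 * D.k - D.m₀ - 1, by omega⟩
  have hb : D.P (x, (0 : ZMod 2)).1 := hx
  have ha : (x, (0 : ZMod 2)) ∈ cls D.R.r (x, 0) := (mem_cls _ _ _).2 (D.R.eqv.refl _)
  have hy : (y, ((2 * D.k + D.m₀ + m' + 1 : ℕ) : ZMod 2)) ∈ cls D.R.r (x, 0) :=
    (mem_cls _ _ _).2 hr
  have key := walks_lower (DC D.G) (cls D.R.r (x, 0)) D.d D.K D.ε D.s D.c D.hd D.hε D.hεK hs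
    (min_le_left _ _) hc (by
      rw [c_eq]
      rw [mul_div_assoc', div_le_iff₀ (by positivity)]
      apply le_of_eq
      ring)
    (fun c hc => D.dg_low hb hc)
    (fun c hc => (Nat.cast_le.2 (D.dg_le_deg _ c)).trans (D.degG c.1))
    (fun S hS h => D.exp' hb S hS h) D.k (x, 0) (y, ((2 * D.k + D.m₀ + m' + 1 : ℕ) : ZMod 2))
    (D.base hb ha) (D.base hb hy) D.m₀ m' (D.hm₀ _ le_rfl) (D.hm₀ _ (by omega)) (by
      rintro ⟨z, i⟩ p q hp hq
      rw [W_DC] at hp hq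
      have e1 : (0 : ZMod 2) = i + (p : ZMod 2) := by
        by_contra h
        rw [if_neg h] at hp
        exact hp rfl
      have e2 : ((2 * D.k + D.m₀ + m' + 1 : ℕ) : ZMod 2) = i + (q : ZMod 2) := by
        by_contra h
        rw [if_neg h] at hq
        exact hq rfl
      rw [e2, Nat.cast_add]
      have k2 : ∀ i p q : ZMod 2, 0 = i + p → p + q = i + q := by decide
      exact k2 _ _ _ e1)
  rw [W_DC, if_pos (by simp)] at key
  refine le_trans ?_ key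
  have h1 := D.card_cls hb
  have e1 : 2 * D.k + D.m₀ + m' + 1 - 2 * D.k = D.m₀ + m' + 1 := by omega
  have e2 : 2 * D.k + D.m₀ + m' + 1 - D.k = D.k + (D.m₀ + m' + 1) := by omega
  rw [e1, e2, pow_add D.d D.k, D.hdk, mul_pow]
  have h2 : D.σ₀ / 4 * D.c ^ (D.m₀ + m' + 1) * (Fintype.card V * D.d ^ (D.m₀ + m' + 1)) =
      1 / 4 * (D.σ₀ * Fintype.card V) * (D.c ^ (D.m₀ + m' + 1) * D.d ^ (D.m₀ + m' + 1)) := by
    ring
  rw [h2]
  apply mul_le_mul_of_nonneg_right _ (by positivity)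
  apply mul_le_mul_of_nonneg_left h1 (by norm_num)

end Dat

end Pool.Agent.K4H82.ST
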