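import Pool.Agent.K4H82.ST.Mix

/-!
# Walks, paths and cycles in the pieces
-/

set_option autoImplicit false

open Finset Classical

namespace Pool.Agent.K4H82.ST

variable {V : Type*} [Fintype V] [DecidableEq V]

theorem path_edge {G : SimpleGraph V} {u v : V} (p : G.Walk v u) (hp : p.IsPath)
    (hl : 2 ≤ p.length) : s(u, v) ∉ p.edges := by
  cases p with
  | nil => simp at hl
  | @cons _ w _ h q =>
    rw [SimpleGraph.Walk.cons_isPath_iff] at hp
    rw [SimpleGraph.Walk.edges_cons, List.mem_cons, not_or]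
    constructor
    · intro he
      rw [Sym2.eq_swap, Sym2.congr_right] at he
      subst he
      have hq := hp.1
      rw [SimpleGraph.Walk.isPath_iff_eq_nil] at hq
      rw [hq] at hl
      simp at hl
    · intro he
      exact hp.2 (q.snd_mem_support_of_mem_edges he)

/-- lower constant -/
noncomputable def loC (k : ℕ) (ε K σ₀ : ℝ) (l : ℕ) : ℝ := σ₀ / 4 * cC k ε K ^ (l - 2 * k)

/-- upper constant -/
noncomputable def upC (k : ℕ) (K : ℝ) (l : ℕ) : ℝ := 2 ^ l * (l + 1) * K ^ (l - k)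

/-- constant for the walks which are not paths -/
noncomputable def bdC (k : ℕ) (K : ℝ) (l : ℕ) : ℝ :=
  l * (l * (2 ^ l * (l + 1) * (2 ^ l * (l + 1)) * K ^ (l - k - 1)))

namespace Dat

variable (D : Dat V)

theorem walk_rel {x y : V} (w : D.G.Walk x y) (i : ZMod 2) :
    D.R.r (x, i) (y, i + (w.length : ZMod 2)) := by
  induction w generalizing i with
  | nil => simpa using D.R.eqv.refl _
  | @cons u v z h q ih =>
    have h1 : D.R.r (u, i) (v, i + 1) := ((D.DC_iff (u, i) (v, i + 1)).1 ⟨h, rfl⟩).2.1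
    have h2 := ih (i + 1)
    rw [SimpleGraph.Walk.length_cons]
    have e : i + ((q.length + 1 : ℕ) : ZMod 2) = i + 1 + (q.length : ZMod 2) := by
      push_cast; ring
    rw [e]
    exact D.R.eqv.trans h1 h2

theorem P_of_walk {x y : V} (w : D.G.Walk x y) (hw : 0 < w.length) : D.P x := by
  cases w with
  | nil => simp at hw
  | cons h q => exact D.P_of_adj h

theorem rel_of_walk {x y : V} (w : D.G.Walk x y) (l : ℕ) (hl : w.length % 2 = l % 2) :
    D.R.r (x, 0) (y, (l : ZMod 2)) := by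
  have h1 := D.walk_rel w 0
  rw [zero_add] at h1
  rwa [← (ZMod.natCast_eq_natCast_iff' w.length l 2).2 hl]

/-- natural bound for the degrees -/
noncomputable def Dn : ℕ := ⌊D.K * D.d⌋₊

theorem one_le_Kd : 1 ≤ D.K * D.d := by
  have h1 := D.hεd
  have h2 : D.ε * D.d ≤ D.K * D.d := mul_le_mul_of_nonneg_right D.hεK D.hd.le
  linarith

theorem Dn_pos : 1 ≤ D.Dn := by
  rw [Dn, Nat.le_floor_iff (by have := D.one_le_Kd; linarith)]
  exact_mod_cast D.one_le_Kd

theorem Dn_le : (D.Dn : ℝ) ≤ D.K * D.d := Nat.floor_le (by have := D.one_le_Kd; linarith)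

theorem deg_le_Dn (x : V) : (univ.filter (D.G.Adj x)).card ≤ D.Dn := by
  rw [Dn, Nat.le_floor_iff (by have := D.one_le_Kd; linarith)]
  exact D.degG x

theorem upper (x y : V) (l : ℕ) (hl : 2 * D.k ≤ l) :
    (W D.G l x y : ℝ) ≤ upC D.k D.K l * D.d ^ (l - D.k) := by
  have h1 := W_le D.G D.hgG D.Dn_pos D.deg_le_Dn l x y
  have e : max (l / 2) (l - D.k) = l - D.k := max_eq_right (by omega)
  rw [e] at h1
  have h2 : (W D.G l x y : ℝ) ≤ 2 ^ l * (l + 1) * (D.Dn : ℝ) ^ (l - D.k) := by exact_mod_cast h1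
  refine h2.trans ?_
  rw [upC, mul_assoc (2 ^ l * ((l : ℝ) + 1)), ← mul_pow]
  exact mul_le_mul_of_nonneg_left (pow_le_pow_left₀ (Nat.cast_nonneg _) D.Dn_le _) (by positivity)

theorem lo_pos (l : ℕ) : 0 < loC D.k D.ε D.K D.σ₀ l := by
  have h1 := D.c_pos
  have h2 := D.hσ₀
  unfold loC
  have : 0 < cC D.k D.ε D.K := h1
  positivity

theorem lower' {x y : V} (hx : D.P x) (l : ℕ) (hl : 2 * D.k + 2 * D.m₀ + 1 ≤ l)
    (hr : D.R.r (x, 0) (y, (l : ZMod 2))) :
    loC D.k D.ε D.K D.σ₀ l * D.d ^ (l - D.k) ≤ (W D.G l x y : ℝ) := D.lower hx l hl hr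

theorem paths {x y : V} (hx : D.P x) (hxy : x ≠ y) (l : ℕ) (hl : 2 * D.k + 2 * D.m₀ + 1 ≤ l)
    (hr : D.R.r (x, 0) (y, (l : ZMod 2)))
    (hd : 2 * bdC D.k D.K l / loC D.k D.ε D.K D.σ₀ l ≤ D.d) :
    loC D.k D.ε D.K D.σ₀ l / 2 * D.d ^ (l - D.k) ≤ ((PS D.G l ∅ x y).card : ℝ) := by
  have h1 := D.lower' hx l hl hr
  have h2 := W_le_PC D.G l ∅ x y
  rw [sum_empty, add_zero] at h2
  have h3 := PC_le D.G l ∅ x y
  have h4 := Bd_le' D.G D.hk D.hgG D.Dn_pos D.deg_le_Dn l (by omega) x y hxy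
  have h5 : (W D.G l x y : ℝ) ≤ (PS D.G l ∅ x y).card + (l * (l * (2 ^ l * (l + 1) *
      (2 ^ l * (l + 1)) * D.Dn ^ (l - D.k - 1))) : ℕ) := by
    exact_mod_cast h2.trans (Nat.add_le_add h3 h4)
  have h6 : ((l * (l * (2 ^ l * (l + 1) * (2 ^ l * (l + 1)) * D.Dn ^ (l - D.k - 1))) : ℕ) : ℝ) ≤
      bdC D.k D.K l * D.d ^ (l - D.k - 1) := by
    push_cast
    rw [bdC]
    have h7 : (D.Dn : ℝ) ^ (l - D.k - 1) ≤ D.K ^ (l - D.k - 1) * D.d ^ (l - D.k - 1) := by
      rw [← mul_pow]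
      exact pow_le_pow_left₀ (Nat.cast_nonneg _) D.Dn_le _
    calc (l : ℝ) * (l * (2 ^ l * (l + 1) * (2 ^ l * (l + 1)) * (D.Dn : ℝ) ^ (l - D.k - 1)))
        ≤ (l : ℝ) * (l * (2 ^ l * (l + 1) * (2 ^ l * (l + 1)) *
          (D.K ^ (l - D.k - 1) * D.d ^ (l - D.k - 1)))) := by gcongr
      _ = _ := by ring
  have hlo := D.lo_pos l
  have hdpos := D.hd
  rw [div_le_iff₀ hlo] at hd
  have e : l - D.k = (l - D.k - 1) + 1 := by omega
  have h8 : bdC D.k D.K l * D.d ^ (l - D.k - 1) ≤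
      loC D.k D.ε D.K D.σ₀ l / 2 * D.d ^ (l - D.k) := by
    rw [e, pow_succ]
    simp only [Nat.add_sub_cancel]
    calc bdC D.k D.K l * D.d ^ (l - D.k - 1) ≤ (loC D.k D.ε D.K D.σ₀ l / 2 * D.d) *
          D.d ^ (l - D.k - 1) := by
          apply mul_le_mul_of_nonneg_right _ (by positivity)
          linarith
      _ = _ := by ring
  linarith

theorem cycles {x : V} (hx : D.P x) (l : ℕ) (hl : 2 * D.k + 2 * D.m₀ + 2 ≤ l)
    (hr : D.R.r (x, 0) (x, (l : ZMod 2)))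
    (hd : 2 * bdC D.k D.K (l - 1) / loC D.k D.ε D.K D.σ₀ (l - 1) ≤ D.d) :
    D.ε * loC D.k D.ε D.K D.σ₀ (l - 1) / 2 * D.d ^ (l - D.k) ≤
      ({p : D.G.Walk x x | p.IsCycle ∧ p.length = l}.ncard : ℝ) := by
  obtain ⟨m, rfl⟩ : ∃ m, l = m + 1 := ⟨l - 1, by omega⟩
  simp only [Nat.add_sub_cancel] at hd ⊢
  have hm : 2 * D.k + 2 * D.m₀ + 1 ≤ m := by omega
  have hk := D.hk
  have k2 : (1 : ZMod 2) + 1 = 0 := by decide
  have hlow : ∀ u : {u // D.G.Adj x u}, loC D.k D.ε D.K D.σ₀ m / 2 * D.d ^ (m - D.k) ≤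
      ((PS D.G m ∅ u x).card : ℝ) := by
    rintro ⟨u, hu⟩
    apply D.paths (D.P_of_adj hu.symm) hu.ne' m hm _ hd
    have h1 : D.R.r (x, 0) (u, 1) := hu.2.1
    have h2 : D.R.r (u, 1) (x, ((m + 1 : ℕ) : ZMod 2)) := D.R.eqv.trans (D.R.eqv.symm h1) hr
    have h3 := D.R.swp _ _ h2
    simp only [sw, k2, Nat.cast_add, Nat.cast_one] at h3
    have e : (m : ZMod 2) + 1 + 1 = m := by rw [add_assoc, k2, add_zero]
    rwa [e] at h3
  have hcount : (univ.sigma (fun u : {u // D.G.Adj x u} => PS D.G m ∅ u x)).card ≤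
      {p : D.G.Walk x x | p.IsCycle ∧ p.length = m + 1}.ncard := by
    have hfin : {p : D.G.Walk x x | p.IsCycle ∧ p.length = m + 1}.Finite := by
      apply Set.Finite.subset (D.G.finsetWalkLength (m + 1) x x).finite_toSet
      intro p hp
      rw [mem_coe, SimpleGraph.mem_finsetWalkLength_iff]
      exact hp.2
    rw [← Set.ncard_coe_finset]
    apply Set.ncard_le_ncard_of_injOn (fun p => SimpleGraph.Walk.cons p.1.2 p.2) _ _ hfin
    · rintro ⟨⟨u, hu⟩, q⟩ hq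
      rw [mem_coe, mem_sigma] at hq
      have h := (mem_PS D.G m ∅ u x q).1 hq.2
      refine ⟨?_, ?_⟩
      · rw [SimpleGraph.Walk.cons_isCycle_iff]
        exact ⟨h.2.1, path_edge q h.2.1 (by omega)⟩
      · simp [h.1]
    · rintro ⟨⟨u, hu⟩, q⟩ _ ⟨⟨u', hu'⟩, q'⟩ _ he
      simp only [SimpleGraph.Walk.cons.injEq] at he
      obtain ⟨rfl, he2⟩ := he
      rw [heq_iff_eq] at he2
      subst he2
      rfl
  rw [card_sigma] at hcount
  have hdeg := D.deg_low hx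
  have hlo := D.lo_pos m
  have hdpos := D.hd
  have hcardsub : (Fintype.card {u // D.G.Adj x u} : ℝ) = (univ.filter (D.G.Adj x)).card := by
    rw [Fintype.card_subtype]
  have e : m + 1 - D.k = (m - D.k) + 1 := by omega
  rw [e, pow_succ]
  calc D.ε * loC D.k D.ε D.K D.σ₀ m / 2 * (D.d ^ (m - D.k) * D.d)
      = (D.ε * D.d) * (loC D.k D.ε D.K D.σ₀ m / 2 * D.d ^ (m - D.k)) := by ring
    _ ≤ ((univ.filter (D.G.Adj x)).card : ℝ) * (loC D.k D.ε D.K D.σ₀ m / 2 * D.d ^ (m - D.k)) :=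
        mul_le_mul_of_nonneg_right hdeg (by positivity)
    _ = ∑ u : {u // D.G.Adj x u}, (loC D.k D.ε D.K D.σ₀ m / 2 * D.d ^ (m - D.k)) := by
        rw [sum_const, card_univ, nsmul_eq_mul, hcardsub]
    _ ≤ ∑ u : {u // D.G.Adj x u}, ((PS D.G m ∅ u x).card : ℝ) := sum_le_sum fun u _ => hlow u
    _ ≤ _ := by exact_mod_cast hcount

theorem reach {x y : V} {i j : ZMod 2} (hx : D.P x) (h : D.R.r (x, i) (y, j)) :
    D.G.Reachable x y := by
  have key : ∀ i j : ZMod 2, ∃ t : ℕ, t < 2 ∧ j = i + t := by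
    intro i j
    refine ⟨(j - i).val, ZMod.val_lt _, ?_⟩
    rw [ZMod.natCast_val, ZMod.cast_id]
    ring
  obtain ⟨t, ht, hj⟩ := key i j
  have h0 : D.R.r (x, 0) (y, (t : ZMod 2)) := by
    have k0 : ∀ i : ZMod 2, i = 0 ∨ i = 1 := by decide
    rcases k0 i with rfl | rfl
    · rwa [hj, zero_add] at h
    · have h1 := D.R.swp _ _ h
      have k2 : (1 : ZMod 2) + 1 = 0 := by decide
      simp only [sw, k2] at h1
      rw [hj] at h1
      have e : (1 : ZMod 2) + t + 1 = t := by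
        have : (1 : ZMod 2) + t + 1 = t + (1 + 1) := by ring
        rw [this, k2, add_zero]
      rwa [e] at h1
  have h2 := D.lower' (y := y) hx (2 * (D.k + D.m₀ + 1) + t) (by omega) (by
    push_cast
    have : (2 : ZMod 2) = 0 := by decide
    rw [this, zero_mul, zero_add]
    exact h0)
  have h3 : (0 : ℝ) < (W D.G (2 * (D.k + D.m₀ + 1) + t) x y : ℝ) := by
    refine lt_of_lt_of_le ?_ h2
    have h4 := D.lo_pos (2 * (D.k + D.m₀ + 1) + t)
    have h5 := D.hd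
    positivity
  have h6 : 0 < (D.G.finsetWalkLength (2 * (D.k + D.m₀ + 1) + t) x y).card := by
    rw [← W_eq_card]
    exact_mod_cast h3
  obtain ⟨p, _⟩ := card_pos.1 h6
  exact ⟨p⟩

theorem comp {x : V} (hx : D.P x) :
    D.σ₀ / 2 * Fintype.card V ≤ ({z | D.G.Reachable x z}.ncard : ℝ) := by
  have h1 := D.card_cls (b := (x, 0)) hx
  have h2 : (cls D.R.r (x, 0)).card ≤ 2 * {z | D.G.Reachable x z}.ncard := by
    have hfin : {z | D.G.Reachable x z}.Finite := Set.toFinite _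
    have hsub : cls D.R.r (x, 0) ⊆ hfin.toFinset ×ˢ (univ : Finset (ZMod 2)) := by
      rintro ⟨z, j⟩ hz
      rw [mem_cls] at hz
      rw [mem_product, Set.Finite.mem_toFinset]
      exact ⟨D.reach hx hz, mem_univ _⟩
    have h3 := card_le_card hsub
    rw [card_product, card_univ, ZMod.card] at h3
    rw [Set.ncard_eq_toFinset_card _ hfin]
    omega
  have h3 : ((cls D.R.r (x, 0)).card : ℝ) ≤ 2 * ({z | D.G.Reachable x z}.ncard : ℝ) := by
    exact_mod_cast h2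
  linarith

end Dat

end Pool.Agent.K4H82.ST
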