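import Pool.Agent.K4H82.ST.Lower
import Pool.Agent.K4H82.ST.Dec
import Pool.Agent.TH815.GR5

/-!
# The decomposition of a graph of girth greater than `2 k`
-/

set_option autoImplicit false

open Finset

namespace Pool.Agent.K4H82.ST

variable {V : Type*} [Fintype V] [DecidableEq V]

theorem W_mono {G H : SimpleGraph V} [DecidableRel G.Adj] [DecidableRel H.Adj] (h : G ≤ H)
    (m : ℕ) (x y : V) : W G m x y ≤ W H m x y := by
  induction m generalizing x with
  | zero => exact le_rfl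
  | succ m ih =>
    rw [W_succ, W_succ]
    calc ∑ u ∈ univ.filter (G.Adj x), W G m u y ≤ ∑ u ∈ univ.filter (G.Adj x), W H m u y :=
          sum_le_sum fun u _ => ih u
      _ ≤ _ := by
        apply sum_le_sum_of_subset
        intro u hu
        rw [mem_filter] at hu ⊢
        exact ⟨hu.1, h hu.2⟩

theorem no_cycle_mono {G G' : SimpleGraph V} (h : G' ≤ G) {M : ℕ}
    (hg : ∀ (v : V) (p : G.Walk v v), p.IsCycle → M < p.length) :
    ∀ (v : V) (p : G'.Walk v v), p.IsCycle → M < p.length := by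
  intro v p hp
  have := hg v (p.mapLe h) (SimpleGraph.Walk.IsCycle.mapLe h hp)
  simpa using this

/-- If few vertices are ends of walks with `k` steps from every vertex, the graph has few edges. -/
theorem small (H : SimpleGraph V) [DecidableRel H.Adj] {k : ℕ} (hk : 1 ≤ k)
    (hg : ∀ (v : V) (p : H.Walk v v), p.IsCycle → 2 * k < p.length) (t a : ℝ) (ha : 2 ≤ a)
    (hta : t ≤ (a / 2 - 1) ^ k)
    (ht : ∀ x y, H.Adj x y → ((univ.filter (fun z => 1 ≤ W H k x z)).card : ℝ) < t) :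
    ∑ x, ((univ.filter (H.Adj x)).card : ℝ) ≤ a * Fintype.card V := by
  classical
  by_contra hlt
  push Not at hlt
  obtain ⟨U, -, hU, hdeg⟩ := Pool.TH815.GR.core (fun x y => if H.Adj x y then (1 : ℝ) else 0)
    (fun x y => by simp only [H.adj_comm x y]) (fun x => by simp) a (univ : Finset V)
  have e1 : ∑ x : V, ∑ y : V, (if H.Adj x y then (1 : ℝ) else 0) =
      ∑ x, ((univ.filter (H.Adj x)).card : ℝ) := by
    apply sum_congr rfl
    intro x _
    rw [sum_boole]
  rw [e1, card_univ] at hU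
  have hUne : U.Nonempty := by
    rw [nonempty_iff_ne_empty]
    rintro rfl
    simp at hU
    linarith
  obtain ⟨x, hx⟩ := hUne
  let HU : SimpleGraph V :=
    { Adj := fun x y => H.Adj x y ∧ x ∈ U ∧ y ∈ U
      symm := ⟨fun x y h => ⟨h.1.symm, h.2.2, h.2.1⟩⟩
      loopless := ⟨fun x h => H.loopless.irrefl x h.1⟩ }
  have hle : HU ≤ H := fun x y h => h.1
  have hdeg' : ∀ x ∈ U, a / 2 ≤ ((univ.filter (HU.Adj x)).card : ℝ) := by
    intro x hx
    have := hdeg x hx
    rw [sum_boole] at this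
    have e : univ.filter (HU.Adj x) = U.filter (fun y => H.Adj x y) := by
      ext y
      simp only [mem_filter, mem_univ, true_and, HU]
      constructor
      · rintro ⟨h1, _, h3⟩
        exact ⟨h3, h1⟩
      · rintro ⟨h3, h1⟩
        exact ⟨h1, hx, h3⟩
    rw [e]
    exact this
  obtain ⟨y, hy⟩ : ∃ y, HU.Adj x y := by
    by_contra hno
    push Not at hno
    have h1 := hdeg' x hx
    have h2 : univ.filter (HU.Adj x) = ∅ := by
      ext y
      simp [hno y]
    rw [h2, card_empty, Nat.cast_zero] at h1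
    linarith
  have h3 := many_ends HU (k := k) (δ := ⌈a / 2⌉₊) (no_cycle_mono hle hg) hk (by
    intro u v huv
    rw [Nat.ceil_le]
    exact hdeg' u huv.2.1) x y hy
  have h4 : (univ.filter (fun z => 1 ≤ W HU k x z)).card ≤
      (univ.filter (fun z => 1 ≤ W H k x z)).card := by
    apply card_le_card
    intro z hz
    rw [mem_filter] at hz ⊢
    exact ⟨hz.1, hz.2.trans (W_mono hle k x z)⟩
  have h5 := ht x y hy.1
  have h6 : (a / 2 - 1) ^ k ≤ (((⌈a / 2⌉₊ - 1) ^ k : ℕ) : ℝ) := by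
    push_cast
    apply pow_le_pow_left₀ (by linarith)
    have h7 : a / 2 ≤ (⌈a / 2⌉₊ : ℝ) := Nat.le_ceil _
    have h8 : (1 : ℝ) ≤ (⌈a / 2⌉₊ : ℝ) := by linarith
    rw [Nat.cast_sub (by exact_mod_cast h8)]
    push_cast
    linarith
  have h9 : (((⌈a / 2⌉₊ - 1) ^ k : ℕ) : ℝ) ≤ ((univ.filter (fun z => 1 ≤ W H k x z)).card : ℝ) :=
    Nat.cast_le.2 (h3.trans h4)
  linarith

theorem rel_of_W {Ω : Type*} [Fintype Ω] [DecidableEq Ω] (Γ : SimpleGraph Ω) [DecidableRel Γ.Adj]
    {r : Ω → Ω → Prop} (hr : Equivalence r) (h : ∀ a b, Γ.Adj a b → r a b) (m : ℕ) (a b : Ω)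
    (hW : W Γ m a b ≠ 0) : r a b := by
  induction m generalizing a with
  | zero =>
    rw [W_zero] at hW
    by_cases hab : a = b
    · subst hab; exact hr.refl a
    · simp [hab] at hW
  | succ m ih =>
    rw [W_succ] at hW
    obtain ⟨u, hu, hu2⟩ := exists_ne_zero_of_sum_ne_zero hW
    rw [mem_filter] at hu
    exact hr.trans (h a u hu.2) (ih u hu2)

/-- The swap of the two sheets. -/
def sw (a : V × ZMod 2) : V × ZMod 2 := (a.1, a.2 + 1)

omit [Fintype V] [DecidableEq V] in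
theorem sw_sw (a : V × ZMod 2) : sw (sw a) = a := by
  rcases a with ⟨x, i⟩
  have key : ∀ i : ZMod 2, i + 1 + 1 = i := by decide
  simp only [sw, key i]

/-- The symmetric equivalence relations on the double cover. -/
structure Sys (V : Type*) where
  r : V × ZMod 2 → V × ZMod 2 → Prop
  eqv : Equivalence r
  swp : ∀ a b, r a b → r (sw a) (sw b)

omit [Fintype V] [DecidableEq V] in
theorem Sys.sw_iff (R : Sys V) (a b : V × ZMod 2) : R.r (sw a) (sw b) ↔ R.r a b := by
  constructor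
  · intro h
    have := R.swp _ _ h
    rwa [sw_sw, sw_sw] at this
  · exact R.swp a b

omit [DecidableEq V] in
theorem Sys.card_sw (R : Sys V) (a : V × ZMod 2) :
    (cls R.r (sw a)).card = (cls R.r a).card := by
  classical
  have : cls R.r (sw a) = (cls R.r a).image sw := by
    ext b
    rw [mem_cls, mem_image]
    constructor
    · intro h
      refine ⟨sw b, ?_, sw_sw b⟩
      rw [mem_cls, ← R.sw_iff, sw_sw]
      exact h
    · rintro ⟨b', hb', rfl⟩
      rw [mem_cls] at hb'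
      exact R.swp _ _ hb'
  rw [this, card_image_of_injective]
  intro a b h
  rw [← sw_sw a, h, sw_sw]

omit [DecidableEq V] in
theorem Sys.cls_congr (R : Sys V) {a b : V × ZMod 2} (h : R.r a b) :
    cls R.r a = cls R.r b := by
  ext c
  rw [mem_cls, mem_cls]
  exact ⟨fun h' => R.eqv.trans (R.eqv.symm h) h', fun h' => R.eqv.trans h h'⟩

omit [DecidableEq V] in
theorem Sys.card_sheet (R : Sys V) (x : V) (i : ZMod 2) :
    (cls R.r (x, i)).card = (cls R.r (x, 0)).card := by
  have key : ∀ i : ZMod 2, i = 0 ∨ i = 1 := by decide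
  rcases key i with rfl | rfl
  · rfl
  · have := R.card_sw (x, 0)
    simpa [sw] using this

omit [DecidableEq V] in
theorem Sys.card_inv (R : Sys V) {x y : V} {i j : ZMod 2} (h : R.r (x, i) (y, j)) :
    (cls R.r (x, 0)).card = (cls R.r (y, 0)).card := by
  rw [← R.card_sheet x i, ← R.card_sheet y j, R.cls_congr h]

/-- `P` is a union of classes. -/
def Inv (R : Sys V) (P : V → Prop) : Prop := ∀ x y i j, R.r (x, i) (y, j) → (P x ↔ P y)

/-- The graph of a system, restricted to the vertices in `P`. -/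
def Sys.gr (R : Sys V) (G₁ : SimpleGraph V) (P : V → Prop) (hP : Inv R P) : SimpleGraph V where
  Adj x y := G₁.Adj x y ∧ R.r (x, 0) (y, 1) ∧ P x
  symm := ⟨by
    rintro x y ⟨h1, h2, h4⟩
    have h5 : R.r (x, 1) (y, 0) := by
      have := R.swp _ _ h2
      have key : (1 : ZMod 2) + 1 = 0 := by decide
      simpa [sw, key] using this
    exact ⟨h1.symm, R.eqv.symm h5, (hP _ _ _ _ h2).1 h4⟩⟩
  loopless := ⟨fun x h => G₁.loopless.irrefl x h.1⟩

omit [Fintype V] [DecidableEq V] in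
theorem Sys.gr_le (R : Sys V) (G₁ : SimpleGraph V) (P : V → Prop) (hP : Inv R P) :
    R.gr G₁ P hP ≤ G₁ := fun _ _ h => h.1

omit [Fintype V] [DecidableEq V] in
theorem Sys.DC_iff (R : Sys V) (G₁ : SimpleGraph V) (P : V → Prop) (hP : Inv R P)
    (a b : V × ZMod 2) :
    (DC (R.gr G₁ P hP)).Adj a b ↔ (DC G₁).Adj a b ∧ R.r a b ∧ P a.1 := by
  obtain ⟨x, i⟩ := a
  obtain ⟨y, j⟩ := b
  have key : ∀ i : ZMod 2, i = 0 ∨ i = 1 := by decide
  have k2 : (1 : ZMod 2) + 1 = 0 := by decide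
  rw [DC_adj, DC_adj]
  constructor
  · rintro ⟨⟨h1, h2, h4⟩, rfl⟩
    refine ⟨⟨h1, rfl⟩, ?_, h4⟩
    rcases key i with rfl | rfl
    · simpa using h2
    · have := R.swp _ _ h2
      simpa [sw, k2] using this
  · rintro ⟨⟨h1, rfl⟩, h2, h4⟩
    refine ⟨⟨h1, ?_, h4⟩, rfl⟩
    rcases key i with rfl | rfl
    · simpa using h2
    · have := R.swp _ _ h2
      simpa [sw, k2] using this

/-- The subgraph on the vertices of degree at most `D`. -/
def capG (G : SimpleGraph V) [DecidableRel G.Adj] (D : ℝ) : SimpleGraph V where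
  Adj x y := G.Adj x y ∧ (G.degree x : ℝ) ≤ D ∧ (G.degree y : ℝ) ≤ D
  symm := ⟨fun _ _ h => ⟨h.1.symm, h.2.2, h.2.1⟩⟩
  loopless := ⟨fun x h => G.loopless.irrefl x h.1⟩

omit [DecidableEq V] in
theorem capG_le (G : SimpleGraph V) [DecidableRel G.Adj] (D : ℝ) : capG G D ≤ G :=
  fun _ _ h => h.1

open Classical in
/-- **Decomposition of the graph.** -/
theorem exists_sys (G : SimpleGraph V) [DecidableRel G.Adj] {k : ℕ} (hk : 1 ≤ k)
    (hg : ∀ (v : V) (p : G.Walk v v), p.IsCycle → 2 * k < p.length) (D s0 E a : ℝ)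
    (hs0 : 0 < s0) (hE : 0 ≤ E) (ha : 2 ≤ a) (hsa : s0 ≤ (a / 2 - 1) ^ k) :
    ∃ R : Sys V,
      (∀ b, s0 ≤ ((cls R.r b).card : ℝ) → ∀ S ⊆ cls R.r b, 2 * S.card ≤ (cls R.r b).card →
        E / 4 * S.card ≤ ∑ c ∈ S, (dg (DC (capG G D)) (cls R.r b \ S) c : ℝ)) ∧
      ((univ.filter (fun p : V × V => G.Adj p.1 p.2 ∧ ¬ ((capG G D).Adj p.1 p.2 ∧
          R.r (p.1, 0) (p.2, 1) ∧ s0 ≤ ((cls R.r (p.1, 0)).card : ℝ)))).card : ℝ) ≤
        2 * ∑ x ∈ univ.filter (fun x => D < (G.degree x : ℝ)), (G.degree x : ℝ) +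
        E * (2 * Fintype.card V * gf s0 (2 * Fintype.card V)) + a * Fintype.card V := by
  set G₁ := capG G D with hG₁
  obtain ⟨r, h1, h2, h3, h4⟩ := dec (DC G₁) sw sw_sw (by
    rintro ⟨x, i⟩ ⟨y, j⟩ ⟨h, hj⟩
    refine ⟨h, ?_⟩
    show j + 1 = i + 1 + 1
    rw [show j = i + 1 from hj]) s0 E hs0 hE
  let R : Sys V := ⟨r, h1, h2⟩
  refine ⟨R, h4, ?_⟩
  have hcard : (Fintype.card (V × ZMod 2) : ℝ) = 2 * Fintype.card V := by
    rw [Fintype.card_prod, ZMod.card]
    push_cast
    ring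
  rw [hcard] at h3
  set A1 := univ.filter (fun p : V × V => G.Adj p.1 p.2 ∧ D < (G.degree p.1 : ℝ)) with hA1
  set A2 := univ.filter (fun p : V × V => G.Adj p.1 p.2 ∧ D < (G.degree p.2 : ℝ)) with hA2
  set A3 := univ.filter (fun p : V × V => G₁.Adj p.1 p.2 ∧ ¬ r (p.1, 0) (p.2, 1)) with hA3
  set A4 := univ.filter (fun p : V × V => G₁.Adj p.1 p.2 ∧ r (p.1, 0) (p.2, 1) ∧
    ((cls r (p.1, 0)).card : ℝ) < s0) with hA4
  have hsub : univ.filter (fun p : V × V => G.Adj p.1 p.2 ∧ ¬ (G₁.Adj p.1 p.2 ∧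
      R.r (p.1, 0) (p.2, 1) ∧ s0 ≤ ((cls R.r (p.1, 0)).card : ℝ))) ⊆
      (A1 ∪ A2) ∪ (A3 ∪ A4) := by
    rintro ⟨x, y⟩ hp
    rw [mem_filter] at hp
    obtain ⟨_, hxy, hn⟩ := hp
    simp only at hxy hn
    by_cases hx : D < (G.degree x : ℝ)
    · exact mem_union_left _ (mem_union_left _ (mem_filter.2 ⟨mem_univ _, hxy, hx⟩))
    by_cases hy : D < (G.degree y : ℝ)
    · exact mem_union_left _ (mem_union_right _ (mem_filter.2 ⟨mem_univ _, hxy, hy⟩))
    have h5 : G₁.Adj x y := ⟨hxy, not_lt.1 hx, not_lt.1 hy⟩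
    by_cases hr : r (x, 0) (y, 1)
    · have h6 : ((cls r (x, 0)).card : ℝ) < s0 := by
        by_contra hlt
        exact hn ⟨h5, hr, not_lt.1 hlt⟩
      exact mem_union_right _ (mem_union_right _ (mem_filter.2 ⟨mem_univ _, h5, hr, h6⟩))
    · exact mem_union_right _ (mem_union_left _ (mem_filter.2 ⟨mem_univ _, h5, hr⟩))
  have c1 : (A1.card : ℝ) = ∑ x ∈ univ.filter (fun x => D < (G.degree x : ℝ)),
      (G.degree x : ℝ) := by
    have : A1.card = ∑ x ∈ univ.filter (fun x => D < (G.degree x : ℝ)), G.degree x := by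
      rw [hA1, card_filter, ← univ_product_univ, sum_product, sum_filter]
      apply sum_congr rfl
      intro x _
      by_cases hx : D < (G.degree x : ℝ)
      · simp only [hx, and_true, if_true]
        rw [← card_filter, ← G.card_neighborFinset_eq_degree]
        congr 1
        ext y
        simp
      · simp [hx]
    rw [this]
    push_cast
    rfl
  have c2 : A2.card ≤ A1.card := by
    have : A2 ⊆ A1.image Prod.swap := by
      rintro ⟨x, y⟩ hp
      rw [mem_filter] at hp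
      rw [mem_image]
      exact ⟨(y, x), mem_filter.2 ⟨mem_univ _, hp.2.1.symm, hp.2.2⟩, rfl⟩
    exact (card_le_card this).trans card_image_le
  have c3 : A3.card ≤ cut (DC G₁) r := by
    rw [cut]
    apply card_le_card_of_injOn (fun p => ((p.1, 0), (p.2, 1)))
    · rintro ⟨x, y⟩ hp
      rw [mem_coe, mem_filter] at hp
      rw [mem_coe, mem_filter]
      exact ⟨mem_univ _, ⟨hp.2.1, (by decide : (1 : ZMod 2) = 0 + 1)⟩, hp.2.2⟩
    · rintro ⟨x, y⟩ _ ⟨x', y'⟩ _ h
      simp only [Prod.mk.injEq, and_true] at h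
      exact Prod.ext h.1 h.2
  have c4 : (A4.card : ℝ) ≤ a * Fintype.card V := by
    have hP : Inv R (fun x => ((cls R.r (x, 0)).card : ℝ) < s0) := by
      intro x y i j h
      simp only [R.card_inv h]
    set H := R.gr G₁ _ hP with hH
    have e1 : (A4.card : ℝ) = ∑ x, ((univ.filter (H.Adj x)).card : ℝ) := by
      have : A4.card = ∑ x, (univ.filter (H.Adj x)).card := by
        rw [hA4, card_filter, ← univ_product_univ, sum_product]
        apply sum_congr rfl
        intro x _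
        rw [← card_filter]
        exact congrArg card (filter_congr (fun y _ => Iff.rfl))
      rw [this]
      push_cast
      rfl
    rw [e1]
    apply small H hk (no_cycle_mono ((R.gr_le G₁ _ hP).trans (capG_le G D)) hg) s0 a ha hsa
    intro x y hxy
    refine lt_of_le_of_lt ?_ hxy.2.2
    apply Nat.cast_le.2
    apply card_le_card_of_injOn (fun z => (z, (k : ZMod 2)))
    · intro z hz
      rw [mem_coe, mem_filter] at hz
      rw [mem_coe, mem_cls]
      apply rel_of_W (DC H) R.eqv (fun a b h => ((R.DC_iff G₁ _ hP a b).1 h).2.1) k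
      rw [W_DC, if_pos (by simp)]
      omega
    · intro z _ z' _ h
      simpa using h
  have c5 := card_le_card hsub
  have c6 := card_union_le (A1 ∪ A2) (A3 ∪ A4)
  have c7 := card_union_le A1 A2
  have c8 := card_union_le A3 A4
  have c9 : ((univ.filter (fun p : V × V => G.Adj p.1 p.2 ∧ ¬ (G₁.Adj p.1 p.2 ∧
      R.r (p.1, 0) (p.2, 1) ∧ s0 ≤ ((cls R.r (p.1, 0)).card : ℝ)))).card : ℝ) ≤
      A1.card + A1.card + cut (DC G₁) r + A4.card := by
    have : (univ.filter (fun p : V × V => G.Adj p.1 p.2 ∧ ¬ (G₁.Adj p.1 p.2 ∧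
      R.r (p.1, 0) (p.2, 1) ∧ s0 ≤ ((cls R.r (p.1, 0)).card : ℝ)))).card ≤
      A1.card + A1.card + cut (DC G₁) r + A4.card := by omega
    exact_mod_cast this
  rw [← c1]
  linarith

end Pool.Agent.K4H82.ST
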