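import Pool.Agent.H268R2.LB.NW

/-!
# Upper bounds for the number of walks in a graph of girth greater than `2 k`
-/

set_option autoImplicit false

open Finset

namespace Pool.Agent.K4H82.ST

open Pool.Agent.H268R2.LB

variable {V : Type*} [Fintype V] [DecidableEq V]

/-- The number of walks with `m` steps from `x` to `y`. -/
def W (G : SimpleGraph V) [DecidableRel G.Adj] : ℕ → V → V → ℕ
  | 0, x, y => if x = y then 1 else 0
  | m + 1, x, y => ∑ u ∈ univ.filter (G.Adj x), W G m u y

/-- The number of nonbacktracking walks with `j + 1` steps from `x` to `y` and the first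
step `x → u`. -/
def NB (G : SimpleGraph V) [DecidableRel G.Adj] : ℕ → V → V → V → ℕ
  | 0, _, u, y => if u = y then 1 else 0
  | j + 1, x, u, y => ∑ v ∈ univ.filter (fun v => G.Adj u v ∧ v ≠ x), NB G j u v y

/-- The number of nonbacktracking walks with `j` steps from `x` to `y`. -/
def N (G : SimpleGraph V) [DecidableRel G.Adj] : ℕ → V → V → ℕ
  | 0, x, y => if x = y then 1 else 0
  | j + 1, x, y => ∑ u ∈ univ.filter (G.Adj x), NB G j x u y

variable (G : SimpleGraph V) [DecidableRel G.Adj]

theorem W_zero (x y : V) : W G 0 x y = if x = y then 1 else 0 := rfl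

theorem W_succ (m : ℕ) (x y : V) : W G (m + 1) x y = ∑ u ∈ univ.filter (G.Adj x), W G m u y := rfl

theorem W_add (a b : ℕ) (x y : V) : W G (a + b) x y = ∑ z, W G a x z * W G b z y := by
  induction a generalizing x with
  | zero => simp [W_zero]
  | succ a ih =>
    rw [show a + 1 + b = (a + b) + 1 by ring, W_succ]
    simp only [W_succ, sum_mul]
    rw [sum_comm]
    exact sum_congr rfl fun u _ => ih u

theorem W_one (x y : V) : W G 1 x y = if G.Adj x y then 1 else 0 := by
  rw [W_succ]
  simp only [W_zero]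
  rw [sum_ite_eq' (univ.filter (G.Adj x)) y]
  simp

theorem W_symm (m : ℕ) (x y : V) : W G m x y = W G m y x := by
  induction m generalizing x y with
  | zero => simp [W_zero, eq_comm]
  | succ m ih =>
    rw [W_add G m 1 x y, show m + 1 = 1 + m by ring, W_add G 1 m y x]
    apply sum_congr rfl
    intro z _
    rw [W_one, W_one, ih x z, mul_comm]
    simp only [G.adj_comm z y]

theorem NB_le (j : ℕ) (x u y : V) : NB G j x u y ≤ N G j u y := by
  cases j with
  | zero => exact le_rfl
  | succ j =>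
    rw [NB, N]
    apply sum_le_sum_of_subset
    intro v hv
    simp only [mem_filter, mem_univ, true_and] at hv ⊢
    exact hv.1

theorem NB_NW (j : ℕ) (x u y : V) (h : G.Adj x u) (hne : NB G j x u y ≠ 0) :
    ∃ c, NW G (j + 1) x u c y := by
  induction j generalizing x u with
  | zero =>
    rw [NB] at hne
    by_cases huy : u = y
    · subst huy
      exact ⟨x, NW.one h⟩
    · simp [huy] at hne
  | succ j ih =>
    rw [NB] at hne
    obtain ⟨v, hv, hv2⟩ := exists_ne_zero_of_sum_ne_zero hne
    simp only [mem_filter, mem_univ, true_and] at hv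
    obtain ⟨c, hc⟩ := ih u v hv.1 hv2
    refine ⟨c, ?_⟩
    have := NW.append (NW.one h) hc (Ne.symm hv.2)
    rwa [add_comm 1 (j + 1)] at this

theorem N_le_one {k : ℕ} (hg : ∀ (v : V) (p : G.Walk v v), p.IsCycle → 2 * k < p.length)
    (j : ℕ) (hj : j ≤ k) (x y : V) : N G j x y ≤ 1 := by
  induction j generalizing x with
  | zero => rw [N]; split_ifs <;> simp
  | succ j ih =>
    rw [N]
    by_cases hall : ∀ u ∈ univ.filter (G.Adj x), NB G j x u y = 0
    · rw [sum_eq_zero hall]
      exact Nat.zero_le _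
    · push Not at hall
      obtain ⟨u, hu, hu0⟩ := hall
      rw [mem_filter] at hu
      rw [sum_eq_single u]
      · exact (NB_le G j x u y).trans (ih (by omega) u)
      · intro u' hu' hne
        rw [mem_filter] at hu'
        by_contra h0
        obtain ⟨c, hc⟩ := NB_NW G j x u y hu.2 hu0
        obtain ⟨c', hc'⟩ := NB_NW G j x u' y hu'.2 h0
        exact no_closed hg (NW.append hc'.rev hc hne) (by omega)
      · intro h
        exact absurd (mem_filter.2 hu) h

theorem N_succ_le (j : ℕ) (x y : V) : N G (j + 1) x y ≤ ∑ u ∈ univ.filter (G.Adj x), N G j u y := by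
  rw [N]
  exact sum_le_sum fun u _ => NB_le G j x u y

theorem N_le {k D : ℕ} (hg : ∀ (v : V) (p : G.Walk v v), p.IsCycle → 2 * k < p.length)
    (hD : ∀ x, (univ.filter (G.Adj x)).card ≤ D) (j : ℕ) (x y : V) :
    N G j x y ≤ D ^ (j - k) := by
  induction j generalizing x with
  | zero => simpa using N_le_one G hg 0 (Nat.zero_le _) x y
  | succ j ih =>
    by_cases h : j + 1 ≤ k
    · rw [Nat.sub_eq_zero_of_le h, pow_zero]
      exact N_le_one G hg _ h x y
    · have e : j + 1 - k = (j - k) + 1 := by omega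
      rw [e, pow_succ, mul_comm]
      calc N G (j + 1) x y ≤ ∑ u ∈ univ.filter (G.Adj x), N G j u y := N_succ_le G j x y
        _ ≤ ∑ u ∈ univ.filter (G.Adj x), D ^ (j - k) := sum_le_sum fun u _ => ih u
        _ = (univ.filter (G.Adj x)).card * D ^ (j - k) := by rw [sum_const, smul_eq_mul]
        _ ≤ _ := Nat.mul_le_mul_right _ (hD x)

theorem sum_N_le {D : ℕ} (hD : ∀ x, (univ.filter (G.Adj x)).card ≤ D) (j : ℕ) (x y : V) :
    ∑ u ∈ univ.filter (G.Adj x), N G (j + 1) u y ≤ N G (j + 2) x y + D * N G j x y := by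
  have h1 : ∀ u ∈ univ.filter (G.Adj x), N G (j + 1) u y =
      NB G (j + 1) x u y + NB G j u x y := by
    intro u hu
    rw [mem_filter] at hu
    rw [N, NB, ← sum_filter_add_sum_filter_not (univ.filter (G.Adj u)) (fun v => v ≠ x)]
    congr 1
    · rw [filter_filter]
    · rw [filter_filter, sum_eq_single x]
      · intro v hv hne
        rw [mem_filter] at hv
        exact absurd hne hv.2.2
      · intro h
        exact absurd (mem_filter.2 ⟨mem_univ _, hu.2.symm, by simp⟩) h
  rw [sum_congr rfl h1, sum_add_distrib]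
  apply Nat.add_le_add
  · exact le_rfl
  · calc ∑ u ∈ univ.filter (G.Adj x), NB G j u x y
        ≤ ∑ u ∈ univ.filter (G.Adj x), N G j x y := sum_le_sum fun u _ => NB_le G j u x y
      _ = (univ.filter (G.Adj x)).card * N G j x y := by rw [sum_const, smul_eq_mul]
      _ ≤ _ := Nat.mul_le_mul_right _ (hD x)

/-- Auxiliary upper bound. -/
def Q (D m : ℕ) (x y : V) : ℕ := ∑ j ∈ range (m + 1), D ^ ((m - j) / 2) * N G j x y

theorem sum_Q_le {D : ℕ} (hD : ∀ x, (univ.filter (G.Adj x)).card ≤ D) (m : ℕ) (x y : V) :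
    ∑ u ∈ univ.filter (G.Adj x), Q G D m u y ≤ 2 * Q G D (m + 1) x y := by
  have h0 : ∑ u ∈ univ.filter (G.Adj x), N G 0 u y = N G 1 x y := rfl
  have h1 : ∑ u ∈ univ.filter (G.Adj x), Q G D m u y =
      ∑ j ∈ range (m + 1), D ^ ((m - j) / 2) * ∑ u ∈ univ.filter (G.Adj x), N G j u y := by
    simp only [Q]
    rw [sum_comm]
    exact sum_congr rfl fun j _ => (mul_sum _ _ _).symm
  rw [h1, sum_range_succ', h0]
  have h2 : ∑ j ∈ range m, D ^ ((m - (j + 1)) / 2) *
      ∑ u ∈ univ.filter (G.Adj x), N G (j + 1) u y ≤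
      ∑ j ∈ range m, D ^ ((m - (j + 1)) / 2) * N G (j + 2) x y +
      ∑ j ∈ range m, D ^ ((m + 1 - j) / 2) * N G j x y := by
    rw [← sum_add_distrib]
    apply sum_le_sum
    intro j hj
    rw [mem_range] at hj
    have e : (m + 1 - j) / 2 = (m - (j + 1)) / 2 + 1 := by omega
    rw [e, pow_succ]
    calc D ^ ((m - (j + 1)) / 2) * ∑ u ∈ univ.filter (G.Adj x), N G (j + 1) u y
        ≤ D ^ ((m - (j + 1)) / 2) * (N G (j + 2) x y + D * N G j x y) :=
          Nat.mul_le_mul_left _ (sum_N_le G hD j x y)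
      _ = _ := by ring
  have h3 : ∑ j ∈ range m, D ^ ((m - (j + 1)) / 2) * N G (j + 2) x y +
      D ^ ((m - 0) / 2) * N G 1 x y ≤ Q G D (m + 1) x y := by
    rw [Q, sum_range_succ', sum_range_succ']
    have e1 : ∑ j ∈ range m, D ^ ((m - (j + 1)) / 2) * N G (j + 2) x y =
        ∑ j ∈ range m, D ^ ((m + 1 - (j + 1 + 1)) / 2) * N G (j + 1 + 1) x y := by
      apply sum_congr rfl
      intro j _
      have : (m - (j + 1)) / 2 = (m + 1 - (j + 1 + 1)) / 2 := by omega
      rw [this]
    rw [e1]
    simp only [zero_add, Nat.sub_zero, Nat.add_sub_cancel]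
    omega
  have h4 : ∑ j ∈ range m, D ^ ((m + 1 - j) / 2) * N G j x y ≤ Q G D (m + 1) x y := by
    rw [Q]
    apply sum_le_sum_of_subset
    intro j hj
    rw [mem_range] at hj ⊢
    omega
  omega

theorem W_le_Q {D : ℕ} (hD : ∀ x, (univ.filter (G.Adj x)).card ≤ D) (m : ℕ) (x y : V) :
    W G m x y ≤ 2 ^ m * Q G D m x y := by
  induction m generalizing x with
  | zero => simp [W_zero, Q, N]
  | succ m ih =>
    rw [W_succ]
    calc ∑ u ∈ univ.filter (G.Adj x), W G m u y
        ≤ ∑ u ∈ univ.filter (G.Adj x), 2 ^ m * Q G D m u y := sum_le_sum fun u _ => ih u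
      _ = 2 ^ m * ∑ u ∈ univ.filter (G.Adj x), Q G D m u y := (mul_sum _ _ _).symm
      _ ≤ 2 ^ m * (2 * Q G D (m + 1) x y) := Nat.mul_le_mul_left _ (sum_Q_le G hD m x y)
      _ = _ := by ring

/-- **Upper bound.** In a graph of girth greater than `2 k` and maximum degree at most `D` there
are `O(D ^ (m - k))` walks with `m ≥ 2 k` steps between two vertices, and `O(D ^ (m / 2))` for
`m < 2 k`. -/
theorem W_le {k D : ℕ} (hg : ∀ (v : V) (p : G.Walk v v), p.IsCycle → 2 * k < p.length)
    (hD1 : 1 ≤ D) (hD : ∀ x, (univ.filter (G.Adj x)).card ≤ D) (m : ℕ) (x y : V) :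
    W G m x y ≤ 2 ^ m * (m + 1) * D ^ (max (m / 2) (m - k)) := by
  have h1 : Q G D m x y ≤ (m + 1) * D ^ (max (m / 2) (m - k)) := by
    rw [Q]
    calc ∑ j ∈ range (m + 1), D ^ ((m - j) / 2) * N G j x y
        ≤ ∑ j ∈ range (m + 1), D ^ (max (m / 2) (m - k)) := by
          apply sum_le_sum
          intro j hj
          rw [mem_range] at hj
          calc D ^ ((m - j) / 2) * N G j x y ≤ D ^ ((m - j) / 2) * D ^ (j - k) :=
                Nat.mul_le_mul_left _ (N_le G hg hD j x y)
            _ = D ^ ((m - j) / 2 + (j - k)) := (pow_add _ _ _).symm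
            _ ≤ _ := Nat.pow_le_pow_right hD1 (by
                rcases le_total j k with h | h
                · apply le_max_of_le_left; omega
                · apply le_max_of_le_right; omega)
      _ = _ := by rw [sum_const, card_range, smul_eq_mul]
  calc W G m x y ≤ 2 ^ m * Q G D m x y := W_le_Q G hD m x y
    _ ≤ 2 ^ m * ((m + 1) * D ^ (max (m / 2) (m - k))) := Nat.mul_le_mul_left _ h1
    _ = _ := by ring

end Pool.Agent.K4H82.ST
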